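import Pool.Agent.K4H23.Fs.Defs
import Pool.Agent.TH133.Dual

/-!
# Values of correspondences at points, integration over products (coefficients in a field)
-/

open CategoryTheory AlgebraicGeometry

universe u v w

namespace Pool.Agent.K4H23.Fs

set_option linter.unusedSectionVars false
set_option linter.unusedSimpArgs false

open Pool.Agent.H914 Pool.Agent.H914.VarClass Pool.Agent.H914.VarClass.Obj Pool.Agent.W492.BB
  Pool.Agent.W550.Corr Pool.Agent.TH133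

variable {k : Type u} [Field k] {𝒱 : VarClass k} {K : Type w} [Field K]

variable {C : TheoryData.{u, v, w} 𝒱 K} [hC : IsChowOver C] {X Y Z W V T : 𝒱.Obj}

instance : IsTheory C 1 := hC.isTheory

/-- The rings `A(W)` are commutative. -/
noncomputable instance chCommRing (W : 𝒱.Obj) : CommRing (C.A W) :=
  { (inferInstance : Ring (C.A W)) with mul_comm := fun a b => hC.mul_comm a b }

include hC

lemma ch_comm (a b : C.A X) : a * b = b * a := hC.mul_comm a b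

/-- Base change along arbitrary morphisms for the projections. -/
lemma base_pull (f : W ⟶ Y) (w : C.A (Y.prod Z)) :
    C.pull f (C.push (fst Y Z) w) = C.push (fst W Z) (C.pull (prodMap f (𝟙 Z)) w) := by
  have h0 : ∀ z : C.A Y, C.pull f z = C.push (fst W Y) (C.push (Obj.lift (𝟙 W) f) 1 *
      C.pull (snd W Y) z) := by
    intro z
    rw [← C.proj_right, ← C.push_comp, ← C.pull_comp, lift_fst, lift_snd, one_mul, C.push_id]
  have e1 : prodMap (𝟙 W) (fst Y Z) = aJ W Y Z ≫ fst (W.prod Y) Z := by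
    apply prod_ext <;> simp [aJ, comp_lift]
  have h1 : C.pull (prodMap (𝟙 W) (fst Y Z)) (C.push (Obj.lift (𝟙 W) f) 1) =
      C.push (prodMap (Obj.lift (𝟙 W) f) (𝟙 Z) ≫ aI W Y Z) 1 := by
    rw [e1, C.pull_comp, C.base_fst, map_one, pull_iso C (aJ W Y Z) (aI W Y Z) aJ_aI aI_aJ,
      ← C.push_comp]
  have e2 : prodMap (𝟙 W) (fst Y Z) ≫ fst W Y = fst W (Y.prod Z) := by simp
  have e3 : (prodMap (Obj.lift (𝟙 W) f) (𝟙 Z) ≫ aI W Y Z) ≫ fst W (Y.prod Z) = fst W Z := by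
    simp [aI]
  have e4 : (prodMap (Obj.lift (𝟙 W) f) (𝟙 Z) ≫ aI W Y Z) ≫ snd W (Y.prod Z) =
      prodMap f (𝟙 Z) := by
    apply prod_ext <;> simp [aI]
  rw [h0, C.base_snd, ← C.proj_left, ← C.push_comp, e2, h1, ← C.proj_right, ← C.push_comp,
    ← C.pull_comp, e3, e4, one_mul]

/-- The value of the class `p` on `X × Y` at the points `x`, `y`. -/
noncomputable abbrev vl (C : TheoryData.{u, v, w} 𝒱 K) {X Y W : 𝒱.Obj} (p : C.A (X.prod Y))
    (x : W ⟶ X) (y : W ⟶ Y) : C.A W := value C p x y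

omit hC in
lemma vl_def (p : C.A (X.prod Y)) (x : W ⟶ X) (y : W ⟶ Y) :
    vl C p x y = C.pull (Obj.lift x y) p := rfl

lemma pull_vl (g : V ⟶ W) (p : C.A (X.prod Y)) (x : W ⟶ X) (y : W ⟶ Y) :
    C.pull g (vl C p x y) = vl C p (g ≫ x) (g ≫ y) := by
  rw [vl_def, vl_def, ← C.pull_comp, comp_lift]

lemma vl_univ (p : C.A (X.prod Y)) : vl C p (fst X Y) (snd X Y) = p := by
  rw [vl_def, lift_eta, C.pull_id]

lemma vl_mem {p : C.A (X.prod Y)} {i : ℤ} (hp : p ∈ C.gr (X.prod Y) i) (x : W ⟶ X) (y : W ⟶ Y) :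
    vl C p x y ∈ C.gr W i := C.pull_mem _ hp

lemma vl_add (p q : C.A (X.prod Y)) (x : W ⟶ X) (y : W ⟶ Y) :
    vl C (p + q) x y = vl C p x y + vl C q x y := map_add _ _ _

omit hC in
lemma vl_smul (r : K) (p : C.A (X.prod Y)) (x : W ⟶ X) (y : W ⟶ Y) :
    vl C (r • p) x y = r • vl C p x y := map_smul _ _ _

lemma vl_sum {ι : Type*} (s : Finset ι) (p : ι → C.A (X.prod Y)) (x : W ⟶ X) (y : W ⟶ Y) :
    vl C (∑ i ∈ s, p i) x y = ∑ i ∈ s, vl C (p i) x y := map_sum _ _ _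

lemma vl_zero (x : W ⟶ X) (y : W ⟶ Y) : vl C (0 : C.A (X.prod Y)) x y = 0 := map_zero _

lemma vl_pull (f : X ⟶ Z) (g : Y ⟶ T) (p : C.A (Z.prod T)) (x : W ⟶ X) (y : W ⟶ Y) :
    vl C (C.pull (prodMap f g) p) x y = vl C p (x ≫ f) (y ≫ g) := by
  rw [vl_def, vl_def, ← C.pull_comp]
  congr 1
  congr 1
  apply prod_ext <;> simp

lemma vl_fst (a : C.A X) (x : W ⟶ X) (y : W ⟶ Y) :
    vl C (C.pull (fst X Y) a) x y = C.pull x a := by
  rw [vl_def, ← C.pull_comp, lift_fst]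

lemma vl_snd (a : C.A Y) (x : W ⟶ X) (y : W ⟶ Y) :
    vl C (C.pull (snd X Y) a) x y = C.pull y a := by
  rw [vl_def, ← C.pull_comp, lift_snd]

lemma vl_tp (p : C.A (X.prod Y)) (x : W ⟶ X) (y : W ⟶ Y) :
    vl C (tp C p) y x = vl C p x y := by
  rw [vl_def, vl_def, tp, ← C.pull_comp]
  congr 1
  congr 1
  apply prod_ext <;> simp [sw]

lemma ext_vl {p q : C.A (X.prod Y)} (h : ∀ (W : 𝒱.Obj) (x : W ⟶ X) (y : W ⟶ Y),
    vl C p x y = vl C q x y) : p = q := by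
  have := h _ (fst X Y) (snd X Y)
  rwa [vl_univ, vl_univ] at this

lemma pull_pt (a : C.A (X.prod Y)) (p : W ⟶ X.prod Y) :
    C.pull p a = vl C a (p ≫ fst X Y) (p ≫ snd X Y) := by
  have h : Obj.lift (p ≫ fst X Y) (p ≫ snd X Y) = p := by
    apply prod_ext <;> simp
  rw [vl_def, h]

omit hC in
/-- The exchange of the last two factors. -/
noncomputable def rh (X Y Z : 𝒱.Obj) : (X.prod Y).prod Z ⟶ (X.prod Z).prod Y :=
  Obj.lift (Obj.lift (fst (X.prod Y) Z ≫ fst X Y) (snd (X.prod Y) Z)) (fst (X.prod Y) Z ≫ snd X Y)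

omit hC in
lemma rh_rh (X Y Z : 𝒱.Obj) : rh X Y Z ≫ rh X Z Y = 𝟙 _ := by
  apply prod_ext
  · apply prod_ext <;> simp [rh, comp_lift]
  · simp [rh, comp_lift]

/-- The value of a composition. -/
lemma vl_comp (a : C.A (X.prod Y)) (b : C.A (Y.prod Z)) (x : W ⟶ X) (z : W ⟶ Z) :
    vl C (C.comp a b) x z = C.push (fst W Y) (vl C a (fst W Y ≫ x) (snd W Y) *
      vl C b (snd W Y) (fst W Y ≫ z)) := by
  have e1 : t13 X Y Z = rh X Y Z ≫ fst (X.prod Z) Y := by
    apply prod_ext <;> simp [rh, t13, comp_lift]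
  have e2 : (prodMap (Obj.lift x z) (𝟙 Y) ≫ rh X Z Y) ≫ t23 X Y Z =
      Obj.lift (snd W Y) (fst W Y ≫ z) := by
    apply prod_ext <;> simp [rh, t23, comp_lift]
  have e3 : (prodMap (Obj.lift x z) (𝟙 Y) ≫ rh X Z Y) ≫ fst (X.prod Y) Z =
      Obj.lift (fst W Y ≫ x) (snd W Y) := by
    apply prod_ext <;> simp [rh, comp_lift]
  rw [vl_def, TheoryData.comp, e1, C.push_comp, ← pull_iso C (rh X Z Y) (rh X Y Z) (rh_rh X Z Y)
    (rh_rh X Y Z), base_pull, ← C.pull_comp, map_mul, ← C.pull_comp, ← C.pull_comp, e2, e3,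
    ch_comm]
  rfl

/-- The value of the image of a class. -/
lemma pull_act (b : C.A (X.prod Y)) (a : C.A X) (y : W ⟶ Y) :
    C.pull y (C.act b a) = C.push (fst W X) (vl C b (snd W X) (fst W X ≫ y) *
      C.pull (snd W X) a) := by
  have e1 : snd X Y = sw X Y ≫ fst Y X := by simp [sw]
  have e2 : (prodMap y (𝟙 X) ≫ sw Y X) = Obj.lift (snd W X) (fst W X ≫ y) := by
    apply prod_ext <;> simp [sw]
  have e3 : (prodMap y (𝟙 X) ≫ sw Y X) ≫ fst X Y = snd W X := by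
    simp [sw]
  have h0 : C.act b a = C.push (snd X Y) (b * C.pull (fst X Y) a) := by
    rw [TheoryData.act_apply]
  rw [h0, e1, C.push_comp, ← pull_iso C (sw Y X) (sw X Y) sw_sw sw_sw, base_pull, ← C.pull_comp,
    map_mul, ← C.pull_comp, e3, e2]
  rfl

/-- Fubini: integration of a product over `T × T'`. -/
lemma fub2 (h : C.A (W.prod T)) (h' : C.A (W.prod V)) :
    C.push (fst (W.prod T) V ≫ fst W T)
      (C.pull (fst (W.prod T) V) h * C.pull (prodMap (fst W T) (𝟙 V)) h') =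
      C.push (fst W T) h * C.push (fst W V) h' := by
  rw [C.push_comp, C.proj_left, ← base_pull, C.proj_right]

/-- Change of variables: the image of the pull-back. -/
lemma act_pull_pull {f : X ⟶ X} {f' : X ⟶ X} {g : V ⟶ Y} (h1 : f ≫ f' = 𝟙 X) (h2 : f' ≫ f = 𝟙 X)
    (Γ : C.A (X.prod Y)) (α : C.A X) :
    C.act (C.pull (prodMap f g) Γ) (C.pull f α) = C.pull g (C.act Γ α) := by
  apply (C.pull_id _).symm.trans
  rw [pull_act, pull_act]
  have e1 : C.pull (snd V X) (C.pull f α) = C.pull (prodMap (𝟙 V) f) (C.pull (snd V X) α) := by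
    rw [← C.pull_comp, ← C.pull_comp]
    congr 1
    congr 1
    simp
  have e2 : vl C (C.pull (prodMap f g) Γ) (snd V X) (fst V X ≫ 𝟙 V) =
      C.pull (prodMap (𝟙 V) f) (vl C Γ (snd V X) (fst V X ≫ g)) := by
    rw [vl_pull, pull_vl]
    congr 1
    · simp
    · simp
  have i1 : prodMap (𝟙 V) f ≫ prodMap (𝟙 V) f' = 𝟙 (V.prod X) := by
    apply prod_ext <;> simp [h1]
  have i2 : prodMap (𝟙 V) f' ≫ prodMap (𝟙 V) f = 𝟙 (V.prod X) := by
    apply prod_ext <;> simp [h2]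
  rw [e1, e2, ← map_mul]
  conv_rhs => rw [push_model C (prodMap (𝟙 V) f) (prodMap (𝟙 V) f') i1 i2 (fst V X)]
  congr 2
  simp

lemma smul_comp1 (q : K) (Γ : C.A (X.prod Y)) (Δ : C.A (Y.prod Z)) :
    C.comp (q • Γ) Δ = q • C.comp Γ Δ := by
  rw [← compL_apply C Γ Δ, ← compL_apply C (q • Γ) Δ, map_smul (compL C), LinearMap.smul_apply]

/-- Composition with a graph. -/
lemma vl_graph_comp (f : X ⟶ Y) (Δ : C.A (Y.prod Z)) (x : W ⟶ X) (z : W ⟶ Z) :
    vl C (C.comp (C.graph f) Δ) x z = vl C Δ (x ≫ f) z := by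
  have h1 : C.comp (C.graph f) Δ = C.pull (prodMap f (𝟙 Z)) Δ := by
    rw [TheoryData.comp, TheoryData.graph, C.base_fst, ← C.proj_left, ← C.push_comp, map_one,
      mul_one, ← C.pull_comp]
    have e1 : prodMap (Obj.lift (𝟙 X) f) (𝟙 Z) ≫ t13 X Y Z = 𝟙 _ := by
      apply prod_ext <;> simp [t13]
    have e2 : prodMap (Obj.lift (𝟙 X) f) (𝟙 Z) ≫ t23 X Y Z = prodMap f (𝟙 Z) := by
      apply prod_ext <;> simp [t23]
    rw [e1, e2, C.push_id]
  rw [h1, vl_pull, Category.comp_id]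

lemma comp_mem {i j : ℤ} {Γ : C.A (X.prod Y)} {Δ : C.A (Y.prod Z)}
    (hΓ : Γ ∈ C.gr (X.prod Y) i) (hΔ : Δ ∈ C.gr (Y.prod Z) j) :
    C.comp Γ Δ ∈ C.gr (X.prod Z) (i + j - Y.dim) := by
  have h := C.push_mem (t13 X Y Z) (C.mul_mem (C.pull_mem (t23 X Y Z) hΔ)
    (C.pull_mem (fst (X.prod Y) Z) hΓ))
  have e1 : j + i + 1 * (((X.prod Z).dim : ℤ) - (((X.prod Y).prod Z).dim : ℤ)) =
      i + j - Y.dim := by
    rw [dim_prod, dim_prod, dim_prod]; push_cast; ring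
  rwa [e1] at h

lemma act_mem {i j : ℤ} {Γ : C.A (X.prod Y)} {α : C.A X}
    (hΓ : Γ ∈ C.gr (X.prod Y) i) (hα : α ∈ C.gr X j) : C.act Γ α ∈ C.gr Y (i + j - X.dim) := by
  have h := C.push_mem (snd X Y) (C.mul_mem hΓ (C.pull_mem (fst X Y) hα))
  have e1 : i + j + 1 * ((Y.dim : ℤ) - ((X.prod Y).dim : ℤ)) = i + j - X.dim := by
    rw [dim_prod]; push_cast; ring
  rw [e1] at h
  exact h

lemma graph_deg (f : X ⟶ Y) : C.graph f ∈ C.gr (X.prod Y) Y.dim := by
  have h2 := C.push_mem (Obj.lift (𝟙 X) f) (C.one_mem X)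
  have e1 : (0 : ℤ) + 1 * (((X.prod Y).dim : ℤ) - (X.dim : ℤ)) = Y.dim := by
    rw [dim_prod]; push_cast; ring
  rw [e1] at h2
  exact h2

lemma tp_mem' {i : ℤ} {Γ : C.A (X.prod Y)} (hΓ : Γ ∈ C.gr (X.prod Y) i) :
    tp C Γ ∈ C.gr (Y.prod X) i := C.pull_mem _ hΓ

/-- Albanese-trivial cycles are mapped to Albanese-trivial cycles. -/
lemma alb_act {b : C.A (X.prod Y)} (hb : C.Deg X.dim b) (hXY : X.dim = Y.dim) {α : C.A X}
    (hα : IsAlbaneseTrivial C α) : IsAlbaneseTrivial C (C.act b α) := by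
  refine ⟨?_, fun Z W hW => ?_⟩
  · have h := act_mem hb hα.deg
    rw [add_sub_cancel_right, hXY] at h
    exact h
  · rw [← C.act_comp]
    refine hα.act_eq_zero Z _ ?_
    have h := comp_mem hb hW
    rw [hXY, add_sub_cancel_left] at h
    exact h

lemma alb_add {α β : C.A X} (hα : IsAlbaneseTrivial C α) (hβ : IsAlbaneseTrivial C β) :
    IsAlbaneseTrivial C (α + β) :=
  ⟨Submodule.add_mem _ hα.deg hβ.deg, fun Y W hW => by
    rw [act_map_add, hα.act_eq_zero Y W hW, hβ.act_eq_zero Y W hW, add_zero]⟩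

lemma alb_smul (q : K) {α : C.A X} (hα : IsAlbaneseTrivial C α) :
    IsAlbaneseTrivial C (q • α) :=
  ⟨Submodule.smul_mem _ _ hα.deg, fun Y W hW => by
    rw [act_map_smul, hα.act_eq_zero Y W hW, smul_zero]⟩

lemma alb_zero : IsAlbaneseTrivial C (0 : C.A X) :=
  ⟨Submodule.zero_mem _, fun Y W _ => C.act_map_zero W⟩

lemma alb_sum {ι : Type*} (s : Finset ι) (f : ι → C.A X) (h : ∀ i ∈ s, IsAlbaneseTrivial C (f i)) :
    IsAlbaneseTrivial C (∑ i ∈ s, f i) := by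
  classical
  induction s using Finset.induction_on with
  | empty => rw [Finset.sum_empty]; exact alb_zero
  | insert a s ha ih =>
    rw [Finset.sum_insert ha]
    exact alb_add (h a (Finset.mem_insert_self _ _)) (ih fun i hi => h i (Finset.mem_insert_of_mem hi))

/-- Pull-backs under automorphisms of Albanese-trivial cycles. -/
lemma alb_pull {f g : X ⟶ X} (h1 : f ≫ g = 𝟙 X) (h2 : g ≫ f = 𝟙 X) {α : C.A X}
    (hα : IsAlbaneseTrivial C α) : IsAlbaneseTrivial C (C.pull f α) := by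
  rw [pull_iso C f g h1 h2, ← C.act_graph]
  exact alb_act (graph_deg g) rfl hα

end Pool.Agent.K4H23.Fs
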