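import Pool.Agent.K4H23.Fs.Base

/-!
# Characters, eigenclasses and projectors
-/

open CategoryTheory AlgebraicGeometry

universe u v w

namespace Pool.Agent.K4H23.Fs

set_option linter.unusedSectionVars false
set_option linter.unusedSimpArgs false

open Pool.Agent.H914 Pool.Agent.H914.VarClass Pool.Agent.H914.VarClass.Obj Pool.Agent.W492.BB
  Pool.Agent.W550.Corr Pool.Agent.TH133

section char

variable {K : Type w} [Field K] {m : ℕ} [NeZero m] {ζ : K} {r : ℕ}

/-- The power of `ζ` with exponent in `ℤ/m`. -/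
def ep (ζ : K) (x : ZMod m) : K := ζ ^ x.val

lemma ep_zero : ep ζ (0 : ZMod m) = 1 := by
  rw [ep, ZMod.val_zero, pow_zero]

lemma ep_add (hζ : IsPrimitiveRoot ζ m) (x y : ZMod m) : ep ζ (x + y) = ep ζ x * ep ζ y := by
  rw [ep, ep, ep, ← pow_add, ZMod.val_add, ← pow_eq_pow_mod _ hζ.pow_eq_one]

lemma ep_ne (hζ : IsPrimitiveRoot ζ m) {x : ZMod m} (hx : x ≠ 0) : ep ζ x ≠ 1 := by
  intro h
  have h1 := (hζ.pow_eq_one_iff_dvd x.val).1 h
  have h2 := Nat.eq_zero_of_dvd_of_lt h1 (ZMod.val_lt x)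
  exact hx ((ZMod.val_eq_zero x).1 h2)

lemma ep_nz (hζ : IsPrimitiveRoot ζ m) (x : ZMod m) : ep ζ x ≠ 0 :=
  pow_ne_zero _ (hζ.ne_zero (NeZero.ne m))

lemma sum_ep (hζ : IsPrimitiveRoot ζ m) (x : ZMod m) :
    ∑ a : ZMod m, ep ζ (a * x) = if x = 0 then (m : K) else 0 := by
  split_ifs with h
  · subst h
    simp [ep_zero, ZMod.card]
  · have h1 : ∑ a : ZMod m, ep ζ (a * x) = ep ζ x * ∑ a : ZMod m, ep ζ (a * x) := by
      conv_lhs => rw [← Equiv.sum_comp (Equiv.addRight (1 : ZMod m))]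
      rw [Finset.mul_sum]
      refine Finset.sum_congr rfl fun a _ => ?_
      rw [Equiv.coe_addRight, add_mul, one_mul, ep_add hζ, mul_comm]
    have h2 : (ep ζ x - 1) * ∑ a : ZMod m, ep ζ (a * x) = 0 := by
      rw [sub_mul, one_mul, ← h1, sub_self]
    exact (mul_eq_zero.1 h2).resolve_left (sub_ne_zero.2 (ep_ne hζ h))

lemma chr_eq (a g : Fin r → ZMod m) : chr ζ a g = ep ζ (∑ i, a i * g i) := rfl

lemma chr_zero (a : Fin r → ZMod m) : chr ζ a 0 = 1 := by
  rw [chr_eq]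
  simp [ep_zero]

lemma chr_add (hζ : IsPrimitiveRoot ζ m) (a g h : Fin r → ZMod m) :
    chr ζ a (g + h) = chr ζ a g * chr ζ a h := by
  rw [chr_eq, chr_eq, chr_eq, ← ep_add hζ]
  congr 1
  rw [← Finset.sum_add_distrib]
  exact Finset.sum_congr rfl fun i _ => mul_add _ _ _

lemma chr_neg (hζ : IsPrimitiveRoot ζ m) (a g : Fin r → ZMod m) :
    chr ζ a (-g) * chr ζ a g = 1 := by
  rw [← chr_add hζ, neg_add_cancel, chr_zero]

lemma chr_ne_zero (hζ : IsPrimitiveRoot ζ m) (a g : Fin r → ZMod m) : chr ζ a g ≠ 0 :=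
  ep_nz hζ _

lemma chr_neg_neg (a g : Fin r → ZMod m) : chr ζ (-a) (-g) = chr ζ a g := by
  rw [chr_eq, chr_eq]
  congr 1
  exact Finset.sum_congr rfl fun i _ => by simp

lemma ep_sum (hζ : IsPrimitiveRoot ζ m) (f : Fin r → ZMod m) :
    ep ζ (∑ i, f i) = ∏ i, ep ζ (f i) := by
  induction r with
  | zero => simp [ep_zero]
  | succ r ih => rw [Fin.sum_univ_succ, Fin.prod_univ_succ, ep_add hζ, ih]

/-- Orthogonality. -/
lemma sum_chr (hζ : IsPrimitiveRoot ζ m) (g : Fin r → ZMod m) :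
    ∑ a : Fin r → ZMod m, chr ζ a g = if g = 0 then (m : K) ^ r else 0 := by
  have h1 : ∀ a : Fin r → ZMod m, chr ζ a g = ∏ i, ep ζ (a i * g i) := by
    intro a
    rw [chr_eq, ep_sum hζ]
  rw [Finset.sum_congr rfl fun a _ => h1 a,
    ← Fintype.piFinset_univ, ← Finset.prod_univ_sum (fun _ => Finset.univ)
      (fun i (x : ZMod m) => ep ζ (x * g i))]
  have h2 : ∀ i, ∑ x : ZMod m, ep ζ (x * g i) = if g i = 0 then (m : K) else 0 := fun i =>
    sum_ep hζ (g i)
  rw [Finset.prod_congr rfl fun i _ => h2 i]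
  split_ifs with h
  · subst h
    simp
  · obtain ⟨i, hi⟩ : ∃ i, g i ≠ 0 := by
      by_contra hcon
      push Not at hcon
      exact h (funext hcon)
    exact Finset.prod_eq_zero (Finset.mem_univ i) (if_neg hi)

end char

variable {k : Type u} [Field k] {𝒱 : VarClass k} {K : Type w} [Field K]

variable {C : TheoryData.{u, v, w} 𝒱 K} [hC : IsChowOver C] {X Y Z W V T : 𝒱.Obj}
  {m : ℕ} [NeZero m] {ζ : K} {r : ℕ}

include hC

/-- The pull-backs under the automorphisms `t g` are the multiplications by the values of the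
character `a`. -/
def IsEig (C : TheoryData.{u, v, w} 𝒱 K) (ζ : K) (t : (Fin r → ZMod m) → (X ⟶ X))
    (a : Fin r → ZMod m) (α : C.A X) : Prop := ∀ g, C.pull (t g) α = chr ζ a g • α

/-- The component of `α` for the character `a`. -/
noncomputable def cpt (ζ : K) (t : (Fin r → ZMod m) → (X ⟶ X)) (a : Fin r → ZMod m)
    (α : C.A X) : C.A X :=
  ((m : K) ^ r)⁻¹ • ∑ g : Fin r → ZMod m, chr ζ a (-g) • C.pull (t g) α

section

variable {t : (Fin r → ZMod m) → (X ⟶ X)} {s : Equiv.Perm (Fin r) → (X ⟶ X)}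

lemma cpt_eig (hζ : IsPrimitiveRoot ζ m) (h : HasSymmetries X t s) (a : Fin r → ZMod m)
    (α : C.A X) : IsEig C ζ t a (cpt ζ t a α) := by
  intro h'
  rw [cpt, map_smul, smul_comm (chr ζ a h')]
  congr 1
  rw [map_sum, Finset.smul_sum, ← Equiv.sum_comp (Equiv.addLeft h')
    (fun g => chr ζ a h' • chr ζ a (-g) • C.pull (t g) α)]
  refine Finset.sum_congr rfl fun g _ => ?_
  rw [map_smul, ← C.pull_comp, ← h.t_add, Equiv.coe_addLeft, smul_smul]
  congr 1
  rw [← chr_add hζ]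
  congr 1
  rw [neg_add, add_neg_cancel_left]

lemma cpt_sum [CharZero K] (hζ : IsPrimitiveRoot ζ m) (h : HasSymmetries X t s) (α : C.A X) :
    ∑ a : Fin r → ZMod m, cpt ζ t a α = α := by
  simp only [cpt]
  rw [← Finset.smul_sum, Finset.sum_comm]
  have h1 : ∀ g : Fin r → ZMod m, ∑ a : Fin r → ZMod m, chr ζ a (-g) • C.pull (t g) α =
      (if g = 0 then (m : K) ^ r else 0) • C.pull (t g) α := by
    intro g
    rw [← Finset.sum_smul, sum_chr hζ]
    simp only [neg_eq_zero]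
  rw [Finset.sum_congr rfl fun g _ => h1 g]
  simp only [ite_smul, zero_smul]
  rw [Finset.sum_ite_eq' Finset.univ (0 : Fin r → ZMod m), if_pos (Finset.mem_univ _), smul_smul,
    inv_mul_cancel₀ (pow_ne_zero _ (Nat.cast_ne_zero.2 (NeZero.ne m))), one_smul, h.t_zero,
    C.pull_id]

lemma t_inv (h : HasSymmetries X t s) (g : Fin r → ZMod m) : t g ≫ t (-g) = 𝟙 X := by
  rw [← h.t_add, add_neg_cancel, h.t_zero]

lemma t_inv' (h : HasSymmetries X t s) (g : Fin r → ZMod m) : t (-g) ≫ t g = 𝟙 X := by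
  rw [← h.t_add, neg_add_cancel, h.t_zero]

lemma s_inv' (h : HasSymmetries X t s) (σ : Equiv.Perm (Fin r)) : s σ⁻¹ ≫ s σ = 𝟙 X := by
  have := h.s_inv σ⁻¹
  rwa [inv_inv] at this

lemma cpt_alb (h : HasSymmetries X t s) (a : Fin r → ZMod m) {α : C.A X}
    (hα : IsAlbaneseTrivial C α) : IsAlbaneseTrivial C (cpt ζ t a α) := by
  refine alb_smul _ (alb_sum Finset.univ (fun g => chr ζ a (-g) • C.pull (t g) α) ?_)
  intro g _
  exact alb_smul _ (alb_pull (t_inv (C := C) h g) (t_inv' (C := C) h g) hα)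

/-- Permutation of the coordinates. -/
lemma eig_perm (h : HasSymmetries X t s) (σ : Equiv.Perm (Fin r)) {a : Fin r → ZMod m} {α : C.A X}
    (hα : IsEig C ζ t a α) : IsEig C ζ t (fun i => a (σ⁻¹ i)) (C.pull (s σ) α) := by
  intro g
  rw [← C.pull_comp, h.t_s, C.pull_comp, hα, map_smul]
  congr 1
  rw [chr_eq, chr_eq]
  congr 1
  rw [← Equiv.sum_comp σ (fun i => a (σ⁻¹ i) * g i)]
  exact Finset.sum_congr rfl fun i _ => by simp

/-- The sum of the exponents is zero. -/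
lemma eig_const (hζ : IsPrimitiveRoot ζ m) (h : HasSymmetries X t s) {a : Fin r → ZMod m}
    {α : C.A X} (hα : IsEig C ζ t a α) (ha : ∑ i, a i ≠ 0) : α = 0 := by
  have h1 := hα (fun _ => 1)
  rw [h.t_const, C.pull_id, chr_eq] at h1
  have h2 : (ep ζ (∑ i, a i) - 1) • α = 0 := by
    rw [sub_smul, one_smul, sub_eq_zero]
    simp only [mul_one] at h1
    exact h1.symm
  exact (smul_eq_zero.1 h2).resolve_left (sub_ne_zero.2 (ep_ne hζ ha))

/-- The projector acts as the identity on eigenclasses. -/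
lemma proj_comp [CharZero K] (hζ : IsPrimitiveRoot ζ m) {a : Fin r → ZMod m} {β : C.A (X.prod Y)}
    (hβ : ∀ g, C.pull (prodMap (t g) (𝟙 Y)) β = chr ζ a g • β) :
    C.comp (eigProj C ζ t a) β = β := by
  rw [eigProj, smul_comp1, sum_comp]
  have h1 : ∀ g, C.comp (chr ζ a (-g) • C.graph (t g)) β = β := by
    intro g
    rw [smul_comp1]
    have h2 : C.comp (C.graph (t g)) β = chr ζ a g • β := by
      rw [← hβ]
      apply ext_vl
      intro W x y
      rw [vl_graph_comp, vl_pull, Category.comp_id]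
    rw [h2, smul_smul, chr_neg hζ, one_smul]
  rw [Finset.sum_congr rfl fun g _ => h1 g, Finset.sum_const, Finset.card_univ,
    ← Nat.cast_smul_eq_nsmul K, smul_smul]
  have h3 : ((Fintype.card (Fin r → ZMod m) : ℕ) : K) = (m : K) ^ r := by
    simp [ZMod.card]
  rw [h3, inv_mul_cancel₀ (pow_ne_zero _ (Nat.cast_ne_zero.2 (NeZero.ne m))), one_smul]

lemma eigProj_mem (a : Fin r → ZMod m) : eigProj C ζ t a ∈ C.gr (X.prod X) X.dim :=
  Submodule.smul_mem _ _ (Submodule.sum_mem _ fun _ _ => Submodule.smul_mem _ _ (graph_deg _))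

/-- The transpose of a graph of an automorphism. -/
lemma vl_graph_inv {f g : X ⟶ X} (h1 : f ≫ g = 𝟙 X) (h2 : g ≫ f = 𝟙 X) (x y : W ⟶ X) :
    vl C (C.graph f) x y = vl C (C.graph g) y x := by
  have e : g ≫ Obj.lift (𝟙 X) f = Obj.lift (𝟙 X) g ≫ sw X X := by
    apply prod_ext <;> simp [sw, h2]
  have h3 : C.graph f = tp C (C.graph g) := by
    rw [tp_eq_push, TheoryData.graph, TheoryData.graph, ← C.push_comp, ← e,
      push_model C g f h2 h1 (Obj.lift (𝟙 X) f)]
    have h4 : C.pull g (1 : C.A X) = 1 := map_one _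
    rw [h4]
  rw [h3, vl_tp]

/-- Invariance of a graph. -/
lemma vl_graph_conj {f g f' : X ⟶ X} (h1 : f ≫ g = g ≫ f') {g' : X ⟶ X} (h2 : g ≫ g' = 𝟙 X)
    (h3 : g' ≫ g = 𝟙 X) (x y : W ⟶ X) :
    vl C (C.graph f') (x ≫ g) (y ≫ g) = vl C (C.graph f) x y := by
  have h4 : C.pull (prodMap g g) (C.graph f') = C.graph f := by
    have i1 : prodMap g g ≫ prodMap g' g' = 𝟙 (X.prod X) := by
      apply prod_ext <;> simp [h2]
    have i2 : prodMap g' g' ≫ prodMap g g = 𝟙 (X.prod X) := by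
      apply prod_ext <;> simp [h3]
    have e1 : f' ≫ g' = g' ≫ f := by
      have := congrArg (fun z => g' ≫ z ≫ g') h1
      simp only [Category.assoc, h2, Category.comp_id] at this
      rw [← Category.assoc g' g, h3, Category.id_comp] at this
      exact this.symm
    have e : Obj.lift (𝟙 X) f' ≫ prodMap g' g' = g' ≫ Obj.lift (𝟙 X) f := by
      apply prod_ext
      · simp
      · simp [e1]
    rw [pull_iso C _ _ i1 i2, TheoryData.graph, TheoryData.graph, ← C.push_comp, e,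
      push_model C g' g h3 h2 (Obj.lift (𝟙 X) f)]
    have h4 : C.pull g' (1 : C.A X) = 1 := map_one _
    rw [h4]
  rw [← h4, vl_pull]

/-- The projectors of the opposite characters, with the coordinates permuted. -/
lemma vl_proj_dual (h : HasSymmetries X t s) (σ : Equiv.Perm (Fin r))
    (a : Fin r → ZMod m) (x y : W ⟶ X) :
    vl C (eigProj C ζ t (fun i => -a (σ⁻¹ i))) x y =
      vl C (eigProj C ζ t a) (y ≫ s σ) (x ≫ s σ) := by
  have h0 : ∀ (b : Fin r → ZMod m) (x y : W ⟶ X), vl C (eigProj C ζ t b) x y =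
      ((m : K) ^ r)⁻¹ • ∑ g : Fin r → ZMod m, chr ζ b (-g) • vl C (C.graph (t g)) x y := by
    intro b x y
    rw [eigProj, vl_smul, vl_sum]
    congr 1
    exact Finset.sum_congr rfl fun g _ => vl_smul _ _ _ _
  rw [h0, h0]
  congr 1
  let e : (Fin r → ZMod m) ≃ (Fin r → ZMod m) :=
    Equiv.arrowCongr σ.symm (Equiv.neg (ZMod m))
  have he : ∀ (g : Fin r → ZMod m), e g = fun i => (-g) (σ i) := fun g => rfl
  rw [← Equiv.sum_comp e (fun g => chr ζ a (-g) • vl C (C.graph (t g)) (y ≫ s σ) (x ≫ s σ))]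
  refine Finset.sum_congr rfl fun g _ => ?_
  rw [he, vl_graph_conj (h.t_s σ (-g)) (h.s_inv σ) (s_inv' (C := C) h σ),
    vl_graph_inv (t_inv' (C := C) h g) (t_inv (C := C) h g)]
  congr 1
  rw [chr_eq, chr_eq]
  congr 1
  rw [← Equiv.sum_comp σ]
  exact Finset.sum_congr rfl fun i _ => by simp

end

end Pool.Agent.K4H23.Fs
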