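import Pool.Agent.K4H23.Fs.Defs
import Mathlib.LinearAlgebra.Matrix.Determinant.Basic

/-!
# Determinants, three-element sets of partial sums
-/

namespace Pool.Agent.K4H23.Fs

set_option linter.unusedSimpArgs false
set_option linter.unusedVariables false

section det

variable {R : Type*} [CommRing R]

/-- A determinant with two proportional columns. -/
lemma det_two {n : ℕ} (M : Matrix (Fin n) (Fin n) R) {j j' : Fin n} (hjj : j ≠ j')
    (h : ∀ i i', M i j * M i' j' = M i' j * M i j') : M.det = 0 := by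
  classical
  rw [Matrix.det_apply]
  refine Finset.sum_involution (fun σ _ => σ * Equiv.swap j j') ?_ ?_ (fun _ _ => Finset.mem_univ _)
    ?_
  · intro σ _
    have h1 : ∀ τ : Equiv.Perm (Fin n), ∏ i, M (τ i) i =
        M (τ j) j * M (τ j') j' * ∏ i ∈ (Finset.univ.erase j).erase j', M (τ i) i := by
      intro τ
      rw [← Finset.mul_prod_erase Finset.univ _ (Finset.mem_univ j),
        ← Finset.mul_prod_erase (Finset.univ.erase j) _
          (Finset.mem_erase.2 ⟨hjj.symm, Finset.mem_univ j'⟩), mul_assoc]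
    rw [h1 σ, h1 (σ * Equiv.swap j j')]
    have h2 : ∏ i ∈ (Finset.univ.erase j).erase j', M ((σ * Equiv.swap j j') i) i =
        ∏ i ∈ (Finset.univ.erase j).erase j', M (σ i) i := by
      refine Finset.prod_congr rfl fun i hi => ?_
      have hi1 := Finset.mem_erase.1 hi
      have hi2 := Finset.mem_erase.1 hi1.2
      rw [Equiv.Perm.mul_apply, Equiv.swap_apply_of_ne_of_ne hi2.1 hi1.1]
    rw [h2, Equiv.Perm.mul_apply, Equiv.Perm.mul_apply, Equiv.swap_apply_left,
      Equiv.swap_apply_right, Equiv.Perm.sign_mul, Equiv.Perm.sign_swap hjj, h (σ j) (σ j')]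
    simp
  · intro σ _ _ hσ
    have h1 : Equiv.swap j j' = 1 := by
      have := congrArg (fun τ => σ⁻¹ * τ) hσ
      simpa using this
    have h2 := congrArg (fun τ : Equiv.Perm (Fin n) => τ j) h1
    simp only [Equiv.swap_apply_left, Equiv.Perm.one_apply] at h2
    exact hjj h2.symm
  · intro σ _
    rw [mul_assoc, Equiv.swap_mul_self, mul_one]

/-- The determinant of a sum of fewer than `n` matrices with proportional columns. -/
theorem det_types {n : ℕ} {Φ : Type*} [Fintype Φ] (hn : Fintype.card Φ < n)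
    (M : Φ → Matrix (Fin n) (Fin n) R)
    (h : ∀ φ i i' j j', M φ i j * M φ i' j' = M φ i' j * M φ i j') :
    (Matrix.of fun i j => ∑ φ, M φ i j).det = 0 := by
  classical
  have h1 : (Matrix.of fun i j => ∑ φ, M φ i j).det = ∑ κ : Fin n → Φ,
      (Matrix.of fun i j => M (κ j) i j).det := by
    rw [← Matrix.det_transpose]
    have h2 : (Matrix.of fun i j => ∑ φ, M φ i j).transpose =
        fun j => ∑ φ, (fun i => M φ i j) := by
      funext j i
      rw [Finset.sum_apply]
      rfl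
    have h3 := (Matrix.detRowAlternating (n := Fin n) (R := R)).toMultilinearMap.map_sum
      (fun (j : Fin n) (φ : Φ) => (fun i => M φ i j : Fin n → R))
    change Matrix.detRowAlternating.toMultilinearMap _ = _
    rw [h2]
    refine h3.trans (Finset.sum_congr rfl fun κ _ => ?_)
    rw [← Matrix.det_transpose]
    rfl
  rw [h1]
  refine Finset.sum_eq_zero fun κ _ => ?_
  obtain ⟨j, j', hjj, hκ⟩ := Fintype.exists_ne_map_eq_of_card_lt κ (by simpa using hn)
  refine det_two _ hjj fun i i' => ?_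
  rw [Matrix.of_apply, Matrix.of_apply, Matrix.of_apply, Matrix.of_apply, hκ]
  exact h _ _ _ _ _

end det

section sets

variable {m : ℕ} [NeZero m]

/-- The set of the partial sums. -/
def psum (a : Fin 4 → ZMod m) : Finset (ZMod m) := {a 0, a 0 + a 1, a 0 + a 1 + a 2}

open scoped Classical in
/-- The sets of partial sums which occur. -/
noncomputable def Sets (H : Set (Fin 4 → ZMod m)) : Finset (Finset (ZMod m)) :=
  Finset.univ.filter fun A => ∃ u v w : ZMod m, u ≠ v ∧ u ≠ w ∧ v ≠ w ∧ u ≠ 0 ∧ v ≠ 0 ∧ w ≠ 0 ∧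
    A = {u, v, w} ∧ IsTrivialOn H (expo u v w)

lemma mem_sets {H : Set (Fin 4 → ZMod m)} {A : Finset (ZMod m)} : A ∈ Sets H ↔
    ∃ u v w : ZMod m, u ≠ v ∧ u ≠ w ∧ v ≠ w ∧ u ≠ 0 ∧ v ≠ 0 ∧ w ≠ 0 ∧
      A = {u, v, w} ∧ IsTrivialOn H (expo u v w) := by
  classical
  rw [Sets, Finset.mem_filter]
  simp only [Finset.mem_univ, true_and]

lemma card_of_mem {H : Set (Fin 4 → ZMod m)} {A : Finset (ZMod m)} (hA : A ∈ Sets H) :
    A.card = 3 := by
  classical
  obtain ⟨u, v, w, huv, huw, hvw, -, -, -, rfl, -⟩ := (Finset.mem_filter.1 hA).2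
  exact Finset.card_eq_three.2 ⟨u, v, w, huv, huw, hvw, rfl⟩

lemma card_sets {H : Set (Fin 4 → ZMod m)} (hH : IsSymmetric H) : (Sets H).card ≤ genus H := by
  classical
  rw [genus]
  refine le_trans (Finset.card_le_card ?_) (Finset.card_image_le
    (f := fun p : ℕ × ℕ × ℕ => ({(p.1 : ZMod m), (p.2.1 : ZMod m), (p.2.2 : ZMod m)} :
      Finset (ZMod m))))
  intro A hA
  obtain ⟨u, v, w, huv, huw, hvw, hu, hv, hw, rfl, htr⟩ := (Finset.mem_filter.1 hA).2
  -- all the orderings
  have key : ∀ u v w : ZMod m, u ≠ 0 → u.val < v.val → v.val < w.val →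
      IsTrivialOn H (expo u v w) → ∃ p ∈ (Finset.range m ×ˢ Finset.range m ×ˢ
        Finset.range m).filter fun p : ℕ × ℕ × ℕ => 0 < p.1 ∧ p.1 < p.2.1 ∧ p.2.1 < p.2.2 ∧
          IsTrivialOn H (expo (p.1 : ZMod m) (p.2.1 : ZMod m) (p.2.2 : ZMod m)),
        ({(p.1 : ZMod m), (p.2.1 : ZMod m), (p.2.2 : ZMod m)} : Finset (ZMod m)) = {u, v, w} := by
    intro u v w hu huv hvw htr
    refine ⟨(u.val, v.val, w.val), ?_, ?_⟩
    · simp only [Finset.mem_filter, Finset.mem_product, Finset.mem_range, ZMod.natCast_zmod_val]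
      exact ⟨⟨ZMod.val_lt u, ZMod.val_lt v, ZMod.val_lt w⟩,
        Nat.pos_of_ne_zero fun h => hu ((ZMod.val_eq_zero u).1 h), huv, hvw, htr⟩
    · simp only [ZMod.natCast_zmod_val]
  have h213 := (hH u v w htr).1
  have h132 := (hH u v w htr).2
  have h231 := (hH v u w h213).2
  have h312 := (hH u w v h132).1
  have h321 := (hH w u v h312).2
  have inj : ∀ {x y : ZMod m}, x ≠ y → x.val ≠ y.val := fun h h' => h (ZMod.val_injective m h')
  rw [Finset.mem_image]
  have huv' := inj huv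
  have huw' := inj huw
  have hvw' := inj hvw
  have s1 : ({v, u, w} : Finset (ZMod m)) = {u, v, w} := Finset.insert_comm _ _ _
  have s2 : ({u, w, v} : Finset (ZMod m)) = {u, v, w} := by
    ext x; simp only [Finset.mem_insert, Finset.mem_singleton]; tauto
  have s3 : ({v, w, u} : Finset (ZMod m)) = {u, v, w} := by
    ext x; simp only [Finset.mem_insert, Finset.mem_singleton]; tauto
  have s4 : ({w, u, v} : Finset (ZMod m)) = {u, v, w} := by
    ext x; simp only [Finset.mem_insert, Finset.mem_singleton]; tauto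
  have s5 : ({w, v, u} : Finset (ZMod m)) = {u, v, w} := by
    ext x; simp only [Finset.mem_insert, Finset.mem_singleton]; tauto
  rcases lt_or_gt_of_ne huv' with h1 | h1 <;> rcases lt_or_gt_of_ne huw' with h2 | h2 <;>
    rcases lt_or_gt_of_ne hvw' with h3 | h3
  · exact key u v w hu h1 h3 htr
  · rw [← s2]; exact key u w v hu h2 h3 h132
  · omega
  · rw [← s4]; exact key w u v hw h2 h1 h312
  · rw [← s1]; exact key v u w hv h1 h2 h213
  · omega
  · rw [← s3]; exact key v w u hv h3 h2 h231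
  · rw [← s5]; exact key w v u hw h3 h1 h321

/-- Two different orderings of the same three-element set of partial sums. -/
lemma orderings {a a' : Fin 4 → ZMod m} (h0 : ∑ i, a i = 0) (h0' : ∑ i, a' i = 0)
    (h1 : psum a = psum a') (h2 : (psum a).card = 3) (hne : a ≠ a') :
    ∃ (τ τ' : Equiv.Perm (Fin 4)) (ρ : Equiv.Perm (Fin 3)), ∀ i,
      (![a' (τ' 0), a' (τ' 1), a' (τ' 2) + a' (τ' 3)] : Fin 3 → ZMod m) i =
        -(![a (τ 0), a (τ 1), a (τ 2) + a (τ 3)] : Fin 3 → ZMod m) (ρ i) := by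
  obtain ⟨u, hu⟩ : ∃ u, a 0 = u := ⟨_, rfl⟩
  obtain ⟨v, hv⟩ : ∃ v, a 0 + a 1 = v := ⟨_, rfl⟩
  obtain ⟨w, hw⟩ : ∃ w, a 0 + a 1 + a 2 = w := ⟨_, rfl⟩
  obtain ⟨u', hu'⟩ : ∃ u, a' 0 = u := ⟨_, rfl⟩
  obtain ⟨v', hv'⟩ : ∃ v, a' 0 + a' 1 = v := ⟨_, rfl⟩
  obtain ⟨w', hw'⟩ : ∃ w, a' 0 + a' 1 + a' 2 = w := ⟨_, rfl⟩
  have e1 : a 1 = v - u := by rw [← hu, ← hv]; ring
  have e2 : a 2 = w - v := by rw [← hw, ← hv]; ring
  have e3 : a 3 = -w := by
    rw [Fin.sum_univ_four] at h0
    rw [← hw]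
    linear_combination h0
  have e1' : a' 1 = v' - u' := by rw [← hu', ← hv']; ring
  have e2' : a' 2 = w' - v' := by rw [← hw', ← hv']; ring
  have e3' : a' 3 = -w' := by
    rw [Fin.sum_univ_four] at h0'
    rw [← hw']
    linear_combination h0'
  rw [psum, hw, hv, hu] at h1 h2
  rw [psum, hw', hv', hu'] at h1
  have hcard := h2
  have huv : u ≠ v := by
    rintro rfl
    have : ({u, u, w} : Finset (ZMod m)).card ≤ 2 := by
      rw [Finset.insert_eq_of_mem (Finset.mem_insert_self _ _)]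
      exact Finset.card_le_two
    omega
  have huw : u ≠ w := by
    rintro rfl
    have : ({u, v, u} : Finset (ZMod m)).card ≤ 2 := by
      rw [Finset.insert_eq_of_mem (by simp)]
      exact Finset.card_le_two
    omega
  have hvw : v ≠ w := by
    rintro rfl
    have : ({u, v, v} : Finset (ZMod m)).card ≤ 2 := by
      have e : ({u, v, v} : Finset (ZMod m)) = {u, v} := by
        ext x; simp
      rw [e]
      exact Finset.card_le_two
    omega
  have hu1 : u ∈ ({u', v', w'} : Finset (ZMod m)) := by rw [← h1]; simp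
  have hv1 : v ∈ ({u', v', w'} : Finset (ZMod m)) := by rw [← h1]; simp
  have hw1 : w ∈ ({u', v', w'} : Finset (ZMod m)) := by rw [← h1]; simp
  simp only [Finset.mem_insert, Finset.mem_singleton] at hu1 hv1 hw1
  have key : (u = u' ∧ v = v' ∧ w = w') ∨ (u = u' ∧ v = w' ∧ w = v') ∨
      (u = v' ∧ v = u' ∧ w = w') ∨ (u = w' ∧ v = v' ∧ w = u') ∨ (u = w' ∧ v = u' ∧ w = v') ∨
      (u = v' ∧ v = w' ∧ w = u') := by
    rcases hu1 with h | h | h <;> rcases hv1 with h' | h' | h' <;>
      rcases hw1 with h'' | h'' | h'' <;>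
      first
      | exact absurd (h.trans h'.symm) huv
      | exact absurd (h.trans h''.symm) huw
      | exact absurd (h'.trans h''.symm) hvw
      | exact Or.inl ⟨h, h', h''⟩
      | exact Or.inr (Or.inl ⟨h, h', h''⟩)
      | exact Or.inr (Or.inr (Or.inl ⟨h, h', h''⟩))
      | exact Or.inr (Or.inr (Or.inr (Or.inl ⟨h, h', h''⟩)))
      | exact Or.inr (Or.inr (Or.inr (Or.inr (Or.inl ⟨h, h', h''⟩))))
      | exact Or.inr (Or.inr (Or.inr (Or.inr (Or.inr ⟨h, h', h''⟩))))
  rcases key with ⟨rfl, rfl, rfl⟩ | ⟨rfl, rfl, rfl⟩ | ⟨rfl, rfl, rfl⟩ | ⟨rfl, rfl, rfl⟩ |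
    ⟨rfl, rfl, rfl⟩ | ⟨rfl, rfl, rfl⟩
  · exfalso
    apply hne
    funext i
    fin_cases i
    · exact hu.trans hu'.symm
    · exact e1.trans e1'.symm
    · exact e2.trans e2'.symm
    · exact e3.trans e3'.symm
  · refine ⟨Equiv.swap 0 2 * Equiv.swap 1 3, Equiv.swap 0 2 * Equiv.swap 1 3, Equiv.swap 1 2,
      fun i => ?_⟩
    fin_cases i
    · change a' 2 = -a 2
      simp only [hu, hu', e1, e1', e2, e2', e3, e3']; ring
    · change a' 3 = -(a 0 + a 1)
      simp only [hu, hu', e1, e1', e2, e2', e3, e3']; ring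
    · change a' 0 + a' 1 = -a 3
      simp only [hu, hu', e1, e1', e2, e2', e3, e3']; ring
  · refine ⟨1, 1, Equiv.swap 0 2, fun i => ?_⟩
    fin_cases i
    · change a' 0 = -(a 2 + a 3)
      simp only [hu, hu', e1, e1', e2, e2', e3, e3']; ring
    · change a' 1 = -a 1
      simp only [hu, hu', e1, e1', e2, e2', e3, e3']; ring
    · change a' 2 + a' 3 = -a 0
      simp only [hu, hu', e1, e1', e2, e2', e3, e3']; ring
  · refine ⟨1, Equiv.swap 0 2 * Equiv.swap 1 3, Equiv.swap 0 1, fun i => ?_⟩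
    fin_cases i
    · change a' 2 = -a 1
      simp only [hu, hu', e1, e1', e2, e2', e3, e3']; ring
    · change a' 3 = -a 0
      simp only [hu, hu', e1, e1', e2, e2', e3, e3']
    · change a' 0 + a' 1 = -(a 2 + a 3)
      simp only [hu, hu', e1, e1', e2, e2', e3, e3']; ring
  · refine ⟨Equiv.swap 1 2 * Equiv.swap 1 3, Equiv.swap 0 2 * Equiv.swap 1 3,
      Equiv.swap 0 1 * Equiv.swap 0 2, fun i => ?_⟩
    fin_cases i
    · change a' 2 = -(a 1 + a 2)
      simp only [hu, hu', e1, e1', e2, e2', e3, e3']; ring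
    · change a' 3 = -a 0
      simp only [hu, hu', e1, e1', e2, e2', e3, e3']
    · change a' 0 + a' 1 = -a 3
      simp only [hu, hu', e1, e1', e2, e2', e3, e3']; ring
  · refine ⟨Equiv.swap 1 2 * Equiv.swap 1 3, 1, Equiv.swap 0 2 * Equiv.swap 0 1, fun i => ?_⟩
    fin_cases i
    · change a' 0 = -a 3
      simp only [hu, hu', e1, e1', e2, e2', e3, e3']; ring
    · change a' 1 = -(a 1 + a 2)
      simp only [hu, hu', e1, e1', e2, e2', e3, e3']; ring
    · change a' 2 + a' 3 = -a 0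
      simp only [hu, hu', e1, e1', e2, e2', e3, e3']; ring

end sets

end Pool.Agent.K4H23.Fs
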