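import Pool.Agent.K4H23.Fs.Char

/-!
# Zero-cycles on products with the Fermat curve
-/

open CategoryTheory AlgebraicGeometry

universe u v w

namespace Pool.Agent.K4H23.Fs

set_option linter.unusedSectionVars false
set_option linter.unusedSimpArgs false

open Pool.Agent.H914 Pool.Agent.H914.VarClass Pool.Agent.H914.VarClass.Obj Pool.Agent.W492.BB
  Pool.Agent.W550.Corr Pool.Agent.TH133

variable {k : Type u} [Field k] {𝒱 : VarClass k} {K : Type w} [Field K]

variable {C : TheoryData.{u, v, w} 𝒱 K} [hC : IsChowOver C] {X Y Y' Z W V T F : 𝒱.Obj}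
  {m : ℕ} [NeZero m] {ζ : K} {r : ℕ}

include hC

lemma comp_pull_fst (e : C.A X) (Δ : C.A (Y.prod Z)) (x : W ⟶ X) (z : W ⟶ Z) :
    vl C (C.comp (C.pull (fst X Y) e) Δ) x z = C.pull x e * C.pull z (C.act Δ 1) := by
  rw [vl_comp, vl_fst, C.pull_comp, C.proj_left, pull_act, map_one, mul_one]

lemma comp_pull_snd (e : C.A Y) (Δ : C.A (Y.prod Z)) (x : W ⟶ X) (z : W ⟶ Z) :
    vl C (C.comp (C.pull (snd X Y) e) Δ) x z = C.pull z (C.act Δ e) := by
  rw [vl_comp, vl_snd, ch_comm, pull_act]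

/-- Zero-cycles with a zero exponent vanish. -/
lemma zero_label [CharZero K] {t : (Fin 3 → ZMod m) → (F ⟶ F)} {s : Equiv.Perm (Fin 3) → (F ⟶ F)}
    (hF : IsFermatCurve C ζ F t s) {a : Fin 3 → ZMod m} {i : Fin 3} (hi : a i = 0)
    {β : C.A (F.prod Y)} (hd : β ∈ C.gr (F.prod Y) (1 + Y.dim))
    (hβ : ∀ g, C.pull (prodMap (t g) (𝟙 Y)) β = chr ζ a g • β)
    (h0 : C.push (snd F Y) β = 0) : β = 0 := by
  obtain ⟨e, he, hq⟩ := hF.quotient
  have h1 : ∀ j : ZMod m, C.comp (C.graph (t (Pi.single i j))) β = β := by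
    intro j
    apply ext_vl
    intro W x y
    rw [vl_graph_comp]
    have h2 : vl C (C.pull (prodMap (t (Pi.single i j)) (𝟙 Y)) β) x y =
        vl C (chr ζ a (Pi.single i j) • β) x y := by rw [hβ]
    rw [vl_pull, Category.comp_id, vl_smul] at h2
    rw [h2]
    have h3 : chr ζ a (Pi.single i j) = 1 := by
      rw [chr_eq, Finset.sum_eq_single i]
      · rw [hi, zero_mul, ep_zero]
      · intro b _ hb
        rw [Pi.single_eq_of_ne hb, mul_zero]
      · intro h
        exact absurd (Finset.mem_univ i) h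
    rw [h3, one_smul]
  have h2 : C.comp (∑ j : ZMod m, C.graph (t (Pi.single i j))) β = (m : K) • β := by
    rw [sum_comp, Finset.sum_congr rfl fun j _ => h1 j, Finset.sum_const, Finset.card_univ,
      ← Nat.cast_smul_eq_nsmul K, ZMod.card]
  have h3 : C.comp (∑ j : ZMod m, C.graph (t (Pi.single i j))) β = 0 := by
    rw [hq i, smul_comp1, add_comp]
    have h4 : C.comp (C.pull (fst F F) e) β = 0 := by
      apply ext_vl
      intro W x y
      rw [comp_pull_fst, TheoryData.act_apply, map_one, mul_one, h0, map_zero, mul_zero, vl_zero]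
    have h5 : C.comp (C.pull (snd F F) e) β = 0 := by
      apply ext_vl
      intro W x y
      have h3 : β * C.pull (fst F Y) e = 0 := by
        apply hC.gr_top _ ((1 + Y.dim) + 1) _ (C.mul_mem hd (C.pull_mem _ he))
        rw [dim_prod, hF.dim_eq]
        push_cast
        linarith
      rw [comp_pull_snd, TheoryData.act_apply, h3, map_zero, map_zero, vl_zero]
    change (m : K) • (C.comp (C.pull (fst F F) e) β + C.comp (C.pull (snd F F) e) β) = 0
    rw [h4, h5, add_zero, smul_zero]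
  rw [h2] at h3
  exact (smul_eq_zero.1 h3).resolve_left (Nat.cast_ne_zero.2 (NeZero.ne m))

/-- A product of too many factors. -/
lemma vanish {p : C.A (X.prod X)} (hp : p ∈ C.gr (X.prod X) X.dim) (hd : 0 < X.dim)
    {a : C.A (X.prod Y)} {b : C.A (X.prod Y')} (ha : a ∈ C.gr (X.prod Y) ((X.dim : ℤ) + Y.dim))
    (hb : b ∈ C.gr (X.prod Y') ((X.dim : ℤ) + Y'.dim)) (f : X ⟶ X) (x x' : W ⟶ X) (y : W ⟶ Y)
    (y' : W ⟶ Y') :
    vl C p (x' ≫ f) x * (vl C a x y * vl C b x' y') = 0 := by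
  set g : W ⟶ (X.prod Y).prod (X.prod Y') := Obj.lift (Obj.lift x y) (Obj.lift x' y') with hg
  have h0 : vl C p ((snd (X.prod Y) (X.prod Y') ≫ fst X Y') ≫ f)
      (fst (X.prod Y) (X.prod Y') ≫ fst X Y) *
      (C.pull (fst (X.prod Y) (X.prod Y')) a * C.pull (snd (X.prod Y) (X.prod Y')) b) = 0 := by
    apply hC.gr_top _ (X.dim + ((X.dim + Y.dim) + (X.dim + Y'.dim)))
    · exact C.mul_mem (vl_mem hp _ _) (C.mul_mem (C.pull_mem _ ha) (C.pull_mem _ hb))
    · rw [dim_prod, dim_prod, dim_prod]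
      push_cast
      have : (0 : ℤ) < X.dim := by exact_mod_cast hd
      linarith
  have h1 := congrArg (C.pull g) h0
  rw [map_zero, map_mul, map_mul, pull_vl, ← C.pull_comp, ← C.pull_comp] at h1
  have e1 : g ≫ fst (X.prod Y) (X.prod Y') = Obj.lift x y := by rw [hg, lift_fst]
  have e2 : g ≫ snd (X.prod Y) (X.prod Y') = Obj.lift x' y' := by rw [hg, lift_snd]
  have e3 : g ≫ fst (X.prod Y) (X.prod Y') ≫ fst X Y = x := by
    rw [← Category.assoc, e1, lift_fst]
  have e4 : g ≫ (snd (X.prod Y) (X.prod Y') ≫ fst X Y') ≫ f = x' ≫ f := by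
    rw [Category.assoc, ← Category.assoc, e2, ← Category.assoc, lift_fst]
  rw [e1, e2, e3, e4] at h1
  exact h1

/-- The product of the values of two compositions as an integral. -/
lemma vl_mul {p p' : C.A (X.prod X)} {β : C.A (X.prod Y)} {β' : C.A (X.prod Y')}
    (hp : C.comp p β = β) (hp' : C.comp p' β' = β') (x x' : W ⟶ X) (y : W ⟶ Y) (y' : W ⟶ Y') :
    vl C β x y * vl C β' x' y' =
      C.push (fst (W.prod X) X ≫ fst W X)
        (vl C p (fst (W.prod X) X ≫ fst W X ≫ x) (fst (W.prod X) X ≫ snd W X) *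
          vl C p' (fst (W.prod X) X ≫ fst W X ≫ x') (snd (W.prod X) X) *
          (vl C β (fst (W.prod X) X ≫ snd W X) (fst (W.prod X) X ≫ fst W X ≫ y) *
            vl C β' (snd (W.prod X) X) (fst (W.prod X) X ≫ fst W X ≫ y'))) := by
  conv_lhs => rw [← hp, ← hp', vl_comp, vl_comp, ← fub2, map_mul (C.pull (fst (W.prod X) X)),
    map_mul (C.pull (prodMap (fst W X) (𝟙 X))), pull_vl, pull_vl, pull_vl, pull_vl]
  have e1 : prodMap (fst W X) (𝟙 X) ≫ snd W X = snd (W.prod X) X := by simp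
  have e2 : ∀ {U : 𝒱.Obj} (c : W ⟶ U), prodMap (fst W X) (𝟙 X) ≫ fst W X ≫ c =
      fst (W.prod X) X ≫ fst W X ≫ c := by
    intro U c
    rw [← Category.assoc, prodMap_fst, Category.assoc]
  rw [e1, e2, e2]
  congr 1
  ring

section fermat

variable [CharZero K] {t : (Fin 3 → ZMod m) → (F ⟶ F)} {s : Equiv.Perm (Fin 3) → (F ⟶ F)}

/-- The product of zero-cycles for characters which are opposite up to a permutation of the
coordinates is zero. -/
lemma dual_zero (hF : IsFermatCurve C ζ F t s)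
    {a a' : Fin 3 → ZMod m} (h0 : ∑ i, a i = 0) (h1 : ∀ i, a i ≠ 0) (σ : Equiv.Perm (Fin 3))
    (ha' : ∀ i, a' i = -a (σ⁻¹ i)) {β : C.A (F.prod Y)} {β' : C.A (F.prod Y')}
    (hd : β ∈ C.gr (F.prod Y) (1 + Y.dim)) (hd' : β' ∈ C.gr (F.prod Y') (1 + Y'.dim))
    (hβ : C.comp (eigProj C ζ t a) β = β) (hβ' : C.comp (eigProj C ζ t a') β' = β')
    (x x' : W ⟶ F) (y : W ⟶ Y) (y' : W ⟶ Y') :
    vl C β x y * vl C β' x' y' = 0 := by
  obtain rfl : a' = fun i => -a (σ⁻¹ i) := funext ha'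
  rw [vl_mul hβ hβ', vl_proj_dual hF.toHasSymmetries]
  set f := fst (W.prod F) F ≫ fst W F
  have hk := hF.kimura a h0 h1 _ (fst (W.prod F) F ≫ fst W F ≫ x)
    (fst (W.prod F) F ≫ snd W F) (snd (W.prod F) F ≫ s σ)
    ((fst (W.prod F) F ≫ fst W F ≫ x') ≫ s σ)
  have hv := vanish (eigProj_mem (C := C) (ζ := ζ) (t := t) a) (by rw [hF.dim_eq]; exact one_pos)
    (a := β) (b := β') (by rw [hF.dim_eq]; exact_mod_cast hd) (by rw [hF.dim_eq]; exact_mod_cast hd')
    (s σ) (fst (W.prod F) F ≫ snd W F) (snd (W.prod F) F) (fst (W.prod F) F ≫ fst W F ≫ y)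
    (fst (W.prod F) F ≫ fst W F ≫ y')
  have hk' : vl C (eigProj C ζ t a) (fst (W.prod F) F ≫ fst W F ≫ x)
      (fst (W.prod F) F ≫ snd W F) * vl C (eigProj C ζ t a) (snd (W.prod F) F ≫ s σ)
        ((fst (W.prod F) F ≫ fst W F ≫ x') ≫ s σ) +
      vl C (eigProj C ζ t a) (fst (W.prod F) F ≫ fst W F ≫ x)
        ((fst (W.prod F) F ≫ fst W F ≫ x') ≫ s σ) *
      vl C (eigProj C ζ t a) (snd (W.prod F) F ≫ s σ) (fst (W.prod F) F ≫ snd W F) = 0 := hk
  convert map_zero (C.push _) using 2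
  linear_combination (vl C β (fst (W.prod F) F ≫ snd W F) (fst (W.prod F) F ≫ fst W F ≫ y) *
            vl C β' (snd (W.prod F) F) (fst (W.prod F) F ≫ fst W F ≫ y')) * hk' -
    (vl C (eigProj C ζ t a) (fst (W.prod F) F ≫ fst W F ≫ x)
        ((fst (W.prod F) F ≫ fst W F ≫ x') ≫ s σ)) * hv

/-- The symmetrization of the product of zero-cycles for the same character is zero. -/
lemma sym_zero (hF : IsFermatCurve C ζ F t s)
    {a : Fin 3 → ZMod m} (h0 : ∑ i, a i = 0) (h1 : ∀ i, a i ≠ 0)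
    {β : C.A (F.prod Y)} {β' : C.A (F.prod Y')}
    (hβ : C.comp (eigProj C ζ t a) β = β) (hβ' : C.comp (eigProj C ζ t a) β' = β')
    (x x' : W ⟶ F) (y : W ⟶ Y) (y' : W ⟶ Y') :
    vl C β x y * vl C β' x' y' + vl C β x' y * vl C β' x y' = 0 := by
  rw [vl_mul hβ hβ' x x', vl_mul hβ hβ' x' x, ← map_add]
  have hk : vl C (eigProj C ζ t a) (fst (W.prod F) F ≫ fst W F ≫ x)
      (fst (W.prod F) F ≫ snd W F) * vl C (eigProj C ζ t a) (fst (W.prod F) F ≫ fst W F ≫ x')
        (snd (W.prod F) F) +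
      vl C (eigProj C ζ t a) (fst (W.prod F) F ≫ fst W F ≫ x) (snd (W.prod F) F) *
      vl C (eigProj C ζ t a) (fst (W.prod F) F ≫ fst W F ≫ x') (fst (W.prod F) F ≫ snd W F) = 0 :=
    hF.kimura a h0 h1 _ (fst (W.prod F) F ≫ fst W F ≫ x)
      (fst (W.prod F) F ≫ snd W F) (fst (W.prod F) F ≫ fst W F ≫ x') (snd (W.prod F) F)
  convert map_zero (C.push _) using 2
  linear_combination (vl C β (fst (W.prod F) F ≫ snd W F) (fst (W.prod F) F ≫ fst W F ≫ y) *
            vl C β' (snd (W.prod F) F) (fst (W.prod F) F ≫ fst W F ≫ y')) * hk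

end fermat

end Pool.Agent.K4H23.Fs
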