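import Pool.Agent.TH133.Defs
import Mathlib.RingTheory.RootsOfUnity.PrimitiveRoots
import Mathlib.Data.ZMod.Basic
import Mathlib.GroupTheory.Perm.Sign
import Mathlib.Data.Finset.Prod

/-!
# Fermat curves and surfaces in Chow theories with coefficients in a field: definitions
-/

open CategoryTheory AlgebraicGeometry

universe u v w

namespace Pool.Agent.K4H23.Fs

open Pool.Agent.H914 Pool.Agent.H914.VarClass Pool.Agent.H914.VarClass.Obj Pool.Agent.W492.BB
  Pool.Agent.W550.Corr Pool.Agent.TH133

variable {k : Type u} [Field k] {𝒱 : VarClass k} {K : Type w} [Field K]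

/-- The formal properties of the Chow groups `A^i(X) = CH^i(X) ⊗ K` with coefficients in the field
`K` of the varieties of the class `𝒱` (smooth projective, geometrically irreducible): graded
commutative rings with pull-backs and push-forwards, the projection formula and base change
(`IsTheory C 1`); push-forwards along isomorphisms preserve fundamental classes (`HasIso`);
`A^i(X) = 0` for `i > dim X`. -/
class IsChowOver (C : TheoryData.{u, v, w} 𝒱 K) : Prop extends HasIso C where
  isTheory : IsTheory C 1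
  mul_comm : ∀ {X : 𝒱.Obj} (a b : C.A X), C.mul a b = C.mul b a
  gr_top : ∀ (X : 𝒱.Obj) (i : ℤ) (x : C.A X), C.Deg i x → (X.dim : ℤ) < i → x = 0

/-- The zero-cycle `α ∈ CH_0(S)_K` is Albanese-trivial: it is mapped to zero by all correspondences
`W ∈ CH^1(S × Y)_K`, `Y` any variety (these map zero-cycles on `S` to divisor classes on `Y`). -/
structure IsAlbaneseTrivial (C : TheoryData.{u, v, w} 𝒱 K) {S : 𝒱.Obj} (α : C.A S) : Prop where
  deg : C.Deg S.dim α
  act_eq_zero : ∀ (Y : 𝒱.Obj) (W : C.A (S.prod Y)), C.Deg 1 W → C.act W α = 0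

/-- The alternating sum `∑_σ sign(σ) s_1^*(α_{σ 1}) ⋯ s_n^*(α_{σ n})` on `W`. For `W = S^n` and the
`n` projections `s_i` it is `∑_σ sign(σ) α_{σ 1} × ⋯ × α_{σ n}`. -/
noncomputable def altSum (C : TheoryData.{u, v, w} 𝒱 K) {S W : 𝒱.Obj} {n : ℕ}
    (s : Fin n → (W ⟶ S)) (α : Fin n → C.A S) : C.A W :=
  ∑ σ : Equiv.Perm (Fin n), (Equiv.Perm.sign σ : ℤ) •
    (List.ofFn fun i => C.up (s i) (α (σ i))).prod

section symmetries

variable {m r : ℕ}

/-- The symmetries of a Fermat variety `x_0^m + ⋯ + x_{r-1}^m = 0` in the projective space with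
coordinates `x_0, …, x_{r-1}`: the automorphism `t g`, for `g ∈ (ℤ/m)^r`, multiplies `x_i` by
`ζ^(g i)` for a fixed primitive `m`-th root of unity `ζ` of the base field, and `s σ` permutes the
coordinates, `x_i ∘ s σ = x_{σ i}`. -/
structure HasSymmetries (X : 𝒱.Obj) (t : (Fin r → ZMod m) → (X ⟶ X))
    (s : Equiv.Perm (Fin r) → (X ⟶ X)) : Prop where
  t_zero : t 0 = 𝟙 X
  t_add : ∀ g h, t (g + h) = t g ≫ t h
  t_const : ∀ j : ZMod m, t (fun _ => j) = 𝟙 X
  s_inv : ∀ σ, s σ ≫ s σ⁻¹ = 𝟙 X
  t_s : ∀ σ g, t g ≫ s σ = s σ ≫ t (fun i => g (σ i))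

/-- The value `ζ^(a · g)` at `g ∈ (ℤ/m)^r` of the character of the group `(ℤ/m)^r` with exponent
`a ∈ (ℤ/m)^r`. -/
noncomputable def chr (ζ : K) (a g : Fin r → ZMod m) : K := ζ ^ (∑ i, a i * g i : ZMod m).val

/-- The correspondence `m^(-r) ∑_g ζ^(-a · g) [graph of t g]`, the projector onto the part of the
motive of `X` on which the pull-backs under the automorphisms `t g` are the multiplications by
`ζ^(a · g)`. -/
noncomputable def eigProj (C : TheoryData.{u, v, w} 𝒱 K) {X : 𝒱.Obj} [NeZero m] (ζ : K)
    (t : (Fin r → ZMod m) → (X ⟶ X)) (a : Fin r → ZMod m) : C.A (X.prod X) :=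
  ((m : K) ^ r)⁻¹ • ∑ g : Fin r → ZMod m, chr ζ a (-g) • C.graph (t g)

/-- The value `p(x, y)` of the correspondence `p` from `X` to `Y` at the points `x`, `y` of `X` and
`Y` with values in `W`, that is, the pull-back of `p` under `(x, y) : W ⟶ X × Y`. -/
noncomputable def value (C : TheoryData.{u, v, w} 𝒱 K) {X Y W : 𝒱.Obj} (p : C.A (X.prod Y))
    (x : W ⟶ X) (y : W ⟶ Y) : C.A W := C.up (Obj.lift x y) p

/-- `F` is the Fermat curve `x_0^m + x_1^m + x_2^m = 0`, `t` and `s` are its symmetries, in the form
of the following properties: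
* the quotient of `F` by each of the three groups `ℤ/m` which change only the coordinate `x_i` is
  the projective line (`F → ℙ^1` is the projection given by the other two coordinates; the sum of
  the graphs of the elements of the group is the pull-back of the diagonal of `ℙ^1`, and `m e` is
  the class of a line section);
* for the characters `a` with all exponents nonzero the part of `H^1(F)` belonging to `a` has
  dimension one, and so, by the theorem of Kimura, the symmetric square of the motive
  `(F, eigProj a)` is zero. -/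
structure IsFermatCurve [NeZero m] (C : TheoryData.{u, v, w} 𝒱 K) (ζ : K) (F : 𝒱.Obj)
    (t : (Fin 3 → ZMod m) → (F ⟶ F)) (s : Equiv.Perm (Fin 3) → (F ⟶ F)) : Prop extends
    HasSymmetries F t s where
  dim_eq : F.dim = 1
  quotient : ∃ e : C.A F, C.Deg 1 e ∧ ∀ i : Fin 3,
    ∑ j : ZMod m, C.graph (t (Pi.single i j)) =
      (m : K) • (C.up (fst F F) e + C.up (snd F F) e)
  kimura : ∀ a : Fin 3 → ZMod m, ∑ i, a i = 0 → (∀ i, a i ≠ 0) →
    ∀ (W : 𝒱.Obj) (x y x' y' : W ⟶ F),
      C.mul (value C (eigProj C ζ t a) x y) (value C (eigProj C ζ t a) x' y') +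
        C.mul (value C (eigProj C ζ t a) x y') (value C (eigProj C ζ t a) x' y) = 0

/-- `S` is the Fermat surface `x_0^m + x_1^m + x_2^m + x_3^m = 0`, `t` and `s` are its symmetries,
and `F` is the Fermat curve of the same degree, with the automorphisms `t'`: there is a
correspondence `b ∈ CH^2((F × F) × S)` with the symmetries of the graph of the rational map
`F × F ⇢ S`, `(x, y) ↦ (x_0 y_2 : x_1 y_2 : ε x_2 y_0 : ε x_2 y_1)`, `ε^m = -1`, of Shioda and
Katsura, and such that `b_* (ᵗb)_*` is the multiplication by a number `N ≠ 0` on the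
Albanese-trivial zero-cycles of `S` (`b` is the closure of that graph, and `N = m` is the degree of
the rational map). -/
structure IsFermatSurface (C : TheoryData.{u, v, w} 𝒱 K) {F : 𝒱.Obj}
    (t' : (Fin 3 → ZMod m) → (F ⟶ F)) (S : 𝒱.Obj) (t : (Fin 4 → ZMod m) → (S ⟶ S))
    (s : Equiv.Perm (Fin 4) → (S ⟶ S)) : Prop extends HasSymmetries S t s where
  dim_eq : S.dim = 2
  dominated : ∃ (b : C.A ((F.prod F).prod S)) (N : K), C.Deg 2 b ∧ N ≠ 0 ∧
    (∀ g g' : Fin 3 → ZMod m, C.up (prodMap (prodMap (t' g) (t' g'))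
      (t ![g 0 + g' 2, g 1 + g' 2, g 2 + g' 0, g 2 + g' 1])) b = b) ∧
    ∀ α : C.A S, IsAlbaneseTrivial C α → C.act b (C.act (tp C b) α) = N • α

/-- The character of the group `(ℤ/m)^4` with exponent `a` is trivial on the elements of `H`. -/
def IsTrivialOn (H : Set (Fin 4 → ZMod m)) (a : Fin 4 → ZMod m) : Prop :=
  ∀ h ∈ H, ∑ i, a i * h i = 0

/-- The exponent `(u, v - u, w - v, -w)`, whose partial sums are `u, v, w, 0`. -/
def expo (u v w : ZMod m) : Fin 4 → ZMod m := ![u, v - u, w - v, -w]

/-- The set `H` of symmetries of the Fermat surface is symmetric: if the character with exponent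
`(u, v - u, w - v, -w)` is trivial on `H` then so are the characters obtained by permuting
`u, v, w`. Examples: `H = ∅`; the cyclic group `{(3 j, 2 j, j, 0) : d j = 0}` for a divisor `d` of
`m` (the character is trivial on it if and only if `d` divides `u + v + w`); the group
`{(0, j, j', 0) : e j = e j' = 0}` for a divisor `e` of `m` (the condition is
`u ≡ v ≡ w mod e`). -/
def IsSymmetric (H : Set (Fin 4 → ZMod m)) : Prop :=
  ∀ u v w : ZMod m, IsTrivialOn H (expo u v w) →
    IsTrivialOn H (expo v u w) ∧ IsTrivialOn H (expo u w v)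

open scoped Classical in
/-- The number of the triples of integers `0 < u < v < w < m` such that the character with exponent
`(u, v - u, w - v, m - w)` is trivial on `H`. It is the geometric genus of the quotient of the
Fermat surface by the group generated by `H`: the holomorphic `2`-forms on the Fermat surface have
a basis `ω_a`, `a` in the set of the solutions of `a_0 + a_1 + a_2 + a_3 = m` in positive integers,
and `(t h)^* ω_a = ζ^(a · h) ω_a`. For `H = ∅` it is the geometric genus
`(m - 1)(m - 2)(m - 3) / 6` of the Fermat surface. -/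
noncomputable def genus (H : Set (Fin 4 → ZMod m)) : ℕ :=
  ((Finset.range m ×ˢ Finset.range m ×ˢ Finset.range m).filter fun p : ℕ × ℕ × ℕ =>
    0 < p.1 ∧ p.1 < p.2.1 ∧ p.2.1 < p.2.2 ∧
      IsTrivialOn H (expo (p.1 : ZMod m) (p.2.1 : ZMod m) (p.2.2 : ZMod m))).card

/-- The surface `S'` is dominated by the quotient of the Fermat surface `S` by the group generated
by the automorphisms `t h`, `h ∈ H`: there is a correspondence `c ∈ CH^2(S × S')` which is
invariant under these automorphisms and such that `c_* (ᵗc)_*` is the multiplication by a number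
`N ≠ 0` on the Albanese-trivial zero-cycles of `S'` (for example `c` is the graph of the rational
map from `S` to a resolution of singularities `S'` of the quotient; for `H = ∅` one may take
`S' = S` and the diagonal). -/
def IsDominatedByQuotient (C : TheoryData.{u, v, w} 𝒱 K) {S : 𝒱.Obj}
    (t : (Fin 4 → ZMod m) → (S ⟶ S)) (H : Set (Fin 4 → ZMod m)) (S' : 𝒱.Obj) : Prop :=
  S'.dim = 2 ∧ ∃ (c : C.A (S.prod S')) (N : K), C.Deg 2 c ∧ N ≠ 0 ∧
    (∀ h ∈ H, C.up (prodMap (t h) (𝟙 S')) c = c) ∧
    ∀ α : C.A S', IsAlbaneseTrivial C α → C.act c (C.act (tp C c) α) = N • α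

end symmetries

/-- The assertion of the conjecture of Voisin for the surface `S`, with `p` in place of the
geometric genus: for all `n > p` and all Albanese-trivial zero-cycles `α_1, …, α_n` on `S` the
alternating sum `∑_σ sign(σ) s_1^*(α_{σ 1}) ⋯ s_n^*(α_{σ n})` is zero, for all varieties `W` and
all `n`-tuples of morphisms `s_i : W ⟶ S` (for example `W = S^n` and the projections). -/
def Voisin (C : TheoryData.{u, v, w} 𝒱 K) (S : 𝒱.Obj) (p : ℕ) : Prop :=
  ∀ n : ℕ, p < n → ∀ α : Fin n → C.A S, (∀ i, IsAlbaneseTrivial C (α i)) →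
    ∀ (W : 𝒱.Obj) (s : Fin n → (W ⟶ S)), altSum C s α = 0

end Pool.Agent.K4H23.Fs
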