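import Pool.Agent.K4H23.Fs.Surf
import Pool.Agent.K4H23.Fs.Comb

/-!
# The conjecture of Voisin for Fermat surfaces
-/

open CategoryTheory AlgebraicGeometry

universe u v w

namespace Pool.Agent.K4H23.Fs

set_option linter.unusedSectionVars false
set_option linter.unusedSimpArgs false

open Pool.Agent.H914 Pool.Agent.H914.VarClass Pool.Agent.H914.VarClass.Obj Pool.Agent.W492.BB
  Pool.Agent.W550.Corr Pool.Agent.TH133

variable {k : Type u} [Field k] {𝒱 : VarClass k} {K : Type w} [Field K]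

variable {C : TheoryData.{u, v, w} 𝒱 K} [hC : IsChowOver C] {X X' Y Y' Z W V T F S S' : 𝒱.Obj}
  {m : ℕ} [NeZero m] {ζ : K} {r : ℕ} [CharZero K]
  {t' : (Fin 3 → ZMod m) → (F ⟶ F)} {s' : Equiv.Perm (Fin 3) → (F ⟶ F)}
  {t : (Fin 4 → ZMod m) → (S ⟶ S)} {s : Equiv.Perm (Fin 4) → (S ⟶ S)}

include hC

lemma altSum_eq {n : ℕ} (x : Fin n → (W ⟶ S)) (α : Fin n → C.A S) :
    altSum C x α = (Matrix.of fun i j => C.pull (x i) (α j)).det := by
  rw [← Matrix.det_transpose, Matrix.det_apply, altSum]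
  refine Finset.sum_congr rfl fun σ _ => ?_
  rw [List.prod_ofFn]
  rfl

lemma eig_mul_comm (hζ : IsPrimitiveRoot ζ m) (hF : IsFermatCurve C ζ F t' s')
    (hS : IsFermatSurface C t' S t s) {a : Fin 4 → ZMod m} {α α' : C.A S}
    (hα : IsAlbaneseTrivial C α) (he : IsEig C ζ t a α)
    (hα' : IsAlbaneseTrivial C α') (he' : IsEig C ζ t a α') (hsum : ∑ i, a i = 0)
    (x x' : W ⟶ S) : C.pull x α * C.pull x' α' = C.pull x' α * C.pull x α' := by
  obtain ⟨b, N, hb⟩ := exists_lift hF hS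
  obtain ⟨β, hβ⟩ := hb _ _ hα he
  obtain ⟨β', hβ'⟩ := hb _ _ hα' he'
  exact hβ.mul_comm hζ hF hβ' hsum x x'

/-- The components of an invariant class. -/
lemma cpt_zero (hζ : IsPrimitiveRoot ζ m) (hF : IsFermatCurve C ζ F t' s')
    (hS : IsFermatSurface C t' S t s) {H : Set (Fin 4 → ZMod m)} {α : C.A S}
    (hα : IsAlbaneseTrivial C α) (hinv : ∀ h ∈ H, C.pull (t h) α = α)
    {a : Fin 4 → ZMod m} (ha : ¬ (∑ i, a i = 0 ∧ psum a ∈ Sets H)) : cpt ζ t a α = 0 := by
  have h0 := hS.toHasSymmetries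
  have he : IsEig C ζ t a (cpt ζ t a α) := cpt_eig hζ h0 a α
  have hA := cpt_alb (ζ := ζ) h0 a hα
  by_cases hsum : ∑ i, a i = 0
  swap
  · exact eig_const hζ h0 he hsum
  by_contra hcon
  apply ha
  have h1 : a 0 ≠ a 0 + a 1 := by
    intro h
    have h2 : a 1 = 0 := by linear_combination -h
    exact hcon (eig_zero hF hS hA he 1 1 h2)
  have h2 : a 0 + a 1 ≠ a 0 + a 1 + a 2 := by
    intro h
    have h2 : a 2 = 0 := by linear_combination -h
    exact hcon (eig_zero hF hS hA he (Equiv.swap 0 2) 0 (by change a 2 = 0; exact h2))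
  have h3 : a 0 ≠ a 0 + a 1 + a 2 := by
    intro h
    have h2 : a 1 + a 2 = 0 := by linear_combination -h
    exact hcon (eig_zero hF hS hA he (Equiv.swap 1 2 * Equiv.swap 1 3) 2
      (by change a 1 + a 2 = 0; exact h2))
  have h4 : a 0 ≠ 0 := fun h => hcon (eig_zero hF hS hA he 1 0 h)
  have h5 : a 0 + a 1 ≠ 0 := by
    intro h
    have h2 : a 2 + a 3 = 0 := by
      rw [Fin.sum_univ_four] at hsum
      linear_combination hsum - h
    exact hcon (eig_zero hF hS hA he 1 2 h2)
  have h6 : a 0 + a 1 + a 2 ≠ 0 := by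
    intro h
    have h2 : a 3 = 0 := by
      rw [Fin.sum_univ_four] at hsum
      linear_combination hsum - h
    exact hcon (eig_zero hF hS hA he (Equiv.swap 0 3) 0 (by change a 3 = 0; exact h2))
  refine ⟨hsum, mem_sets.2 ⟨_, _, _, h1, h3, h2, h4, h5, h6, rfl, ?_⟩⟩
  intro h hh
  by_contra hne
  have h7 : C.pull (t h) (cpt ζ t a α) = cpt ζ t a α := by
    rw [cpt, map_smul, map_sum]
    congr 1
    refine Finset.sum_congr rfl fun g _ => ?_
    rw [map_smul, ← C.pull_comp, ← h0.t_add, add_comm, h0.t_add, C.pull_comp, hinv h hh]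
  rw [he] at h7
  have h8 : (chr ζ a h - 1) • cpt ζ t a α = 0 := by
    rw [sub_smul, one_smul, h7, sub_self]
  have h9 := (smul_eq_zero.1 h8).resolve_right hcon
  have h10 : expo (a 0) (a 0 + a 1) (a 0 + a 1 + a 2) = a := by
    funext i
    rw [Fin.sum_univ_four] at hsum
    fin_cases i
    · rfl
    · change a 0 + a 1 - a 0 = a 1
      ring
    · change a 0 + a 1 + a 2 - (a 0 + a 1) = a 2
      ring
    · change -(a 0 + a 1 + a 2) = a 3
      linear_combination -hsum
  rw [h10] at hne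
  rw [chr_eq] at h9
  exact ep_ne hζ hne (sub_eq_zero.1 h9)

/-- The alternating sums vanish. -/
theorem main (hζ : IsPrimitiveRoot ζ m) (hF : IsFermatCurve C ζ F t' s')
    (hS : IsFermatSurface C t' S t s) {H : Set (Fin 4 → ZMod m)}
    (hS' : IsDominatedByQuotient C t H S') : Voisin C S' (Sets H).card := by
  classical
  intro n hn α' hα' W x
  obtain ⟨hSd, c, N, hc, hN, hci, hdom⟩ := hS'
  have h0 := hS.toHasSymmetries
  let α : Fin n → C.A S := fun j => C.act (tp C c) (α' j)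
  have hα : ∀ j, IsAlbaneseTrivial C (α j) := fun j => by
    refine alb_act ?_ (by rw [hSd, hS.dim_eq]) (hα' j)
    rw [hSd]
    exact tp_mem' hc
  have hinv : ∀ (i : Fin n) (h : Fin 4 → ZMod m), h ∈ H → C.pull (t h) (α i) = α i := by
    intro i h hj
    have h1 := act_pull_pull (f := 𝟙 S') (f' := 𝟙 S') (g := t h)
      (Category.comp_id _) (Category.comp_id _) (tp C c) (α' i)
    rw [C.pull_id] at h1
    rw [← h1]
    congr 1
    apply ext_vl
    intro W x y
    rw [vl_pull, vl_tp, vl_tp, Category.comp_id]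
    conv_rhs => rw [← hci h hj]
    change _ = vl C (C.pull _ c) y x
    rw [vl_pull, Category.comp_id]
  let γ : Sets H → Fin n → C.A S := fun φ j =>
    ∑ a ∈ Finset.univ.filter (fun a : Fin 4 → ZMod m => ∑ i, a i = 0 ∧ psum a = φ),
      cpt ζ t a (α j)
  have hγ : ∀ j, ∑ φ, γ φ j = α j := by
    intro j
    conv_rhs => rw [← cpt_sum hζ h0 (α j)]
    simp only [γ]
    simp_rw [Finset.sum_filter]
    rw [Finset.sum_comm]
    refine Finset.sum_congr rfl fun a _ => ?_
    by_cases ha : ∑ i, a i = 0 ∧ psum a ∈ Sets H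
    · rw [Finset.sum_eq_single ⟨psum a, ha.2⟩]
      · rw [if_pos ⟨ha.1, rfl⟩]
      · intro φ _ hφ
        rw [if_neg]
        rintro ⟨-, h⟩
        exact hφ (Subtype.ext h.symm)
      · intro h
        exact absurd (Finset.mem_univ _) h
    · rw [cpt_zero hζ hF hS (hα j) (hinv j) ha]
      simp
  have hrank : ∀ (φ : Sets H) (j j' : Fin n) {V : 𝒱.Obj} (p p' : V ⟶ S),
      C.pull p (γ φ j) * C.pull p' (γ φ j') = C.pull p' (γ φ j) * C.pull p (γ φ j') := by
    intro φ j j' V p p'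
    simp only [γ]
    rw [map_sum, map_sum, map_sum, map_sum, Finset.sum_mul_sum, Finset.sum_mul_sum]
    refine Finset.sum_congr rfl fun a ha => Finset.sum_congr rfl fun a' ha' => ?_
    obtain ⟨ha1, ha2⟩ := (Finset.mem_filter.1 ha).2
    obtain ⟨ha1', ha2'⟩ := (Finset.mem_filter.1 ha').2
    by_cases haa : a = a'
    · subst haa
      exact eig_mul_comm hζ hF hS (cpt_alb h0 a (hα j)) (cpt_eig hζ h0 a _)
        (cpt_alb h0 a (hα j')) (cpt_eig hζ h0 a _) ha1 p p'
    · obtain ⟨τ, τ', ρ, hρ⟩ := orderings ha1 ha1' (ha2.trans ha2'.symm) (by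
        rw [ha2]
        exact card_of_mem φ.2) haa
      rw [eig_mul_zero hζ hF hS (cpt_alb h0 a (hα j)) (cpt_eig hζ h0 a _)
        (cpt_alb h0 a' (hα j')) (cpt_eig hζ h0 a' _) ha1 τ τ' ρ hρ p p',
        eig_mul_zero hζ hF hS (cpt_alb h0 a (hα j)) (cpt_eig hζ h0 a _)
        (cpt_alb h0 a' (hα j')) (cpt_eig hζ h0 a' _) ha1 τ τ' ρ hρ p' p]
  have hdet := det_types (R := C.A W) (Φ := Sets H) (n := n)
    (by rw [Fintype.card_coe]; exact hn)
    (fun φ => Matrix.of fun i j => C.pull (x i) (C.act c (γ φ j))) (by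
      intro φ i i' j j'
      simp only [Matrix.of_apply]
      rw [ch_comm (C.pull (x i') (C.act c (γ φ j))), act_mul, act_mul, hrank,
        ch_comm (C.pull (snd (W.prod S) S) (γ φ j))])
  have h1 : (Matrix.of fun i j => ∑ φ : Sets H,
      (Matrix.of fun i j => C.pull (x i) (C.act c (γ φ j)) : Matrix (Fin n) (Fin n) (C.A W)) i j) =
      N • (Matrix.of fun i j => C.pull (x i) (α' j)) := by
    funext i j
    simp only [Matrix.of_apply]
    rw [← map_sum, ← act_map_sum, hγ, hdom _ (hα' j), map_smul]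
    rfl
  rw [h1, ← algebraMap_smul (C.A W) N, Matrix.det_smul, ← map_pow, ← Algebra.smul_def] at hdet
  rw [altSum_eq]
  exact (smul_eq_zero.1 hdet).resolve_left (pow_ne_zero _ hN)

omit hC [CharZero K] in
lemma Voisin.mono {p q : ℕ} (h : Voisin C S p) (hpq : p ≤ q) : Voisin C S q :=
  fun n hn => h n (lt_of_le_of_lt hpq hn)

omit [CharZero K] in
lemma dominated_self (hS : S.dim = 2) : IsDominatedByQuotient C t ∅ S := by
  refine ⟨hS, dg C S, 1, ?_, one_ne_zero, fun h hh => absurd hh (Set.notMem_empty h), ?_⟩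
  · have h := graph_deg (C := C) (𝟙 S)
    rw [hS] at h
    exact h
  · intro α _
    rw [tp_dg, act_dg, act_dg, one_smul]

/-- The conjecture of Voisin for Fermat surfaces. -/
theorem voisin_fermat (hζ : IsPrimitiveRoot ζ m) (hF : IsFermatCurve C ζ F t' s')
    (hS : IsFermatSurface C t' S t s) : Voisin C S ((m - 1).choose 3) := by
  refine (main hζ hF hS (dominated_self (t := t) hS.dim_eq)).mono ?_
  have h1 : Sets (m := m) ∅ ⊆ (Finset.univ.erase (0 : ZMod m)).powersetCard 3 := by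
    intro A hA
    refine Finset.mem_powersetCard.2 ⟨?_, card_of_mem hA⟩
    obtain ⟨u, v, w, -, -, -, hu, hv, hw, rfl, -⟩ := mem_sets.1 hA
    intro x hx
    refine Finset.mem_erase.2 ⟨?_, Finset.mem_univ _⟩
    simp only [Finset.mem_insert, Finset.mem_singleton] at hx
    rcases hx with rfl | rfl | rfl <;> assumption
  refine (Finset.card_le_card h1).trans (le_of_eq ?_)
  rw [Finset.card_powersetCard, Finset.card_erase_of_mem (Finset.mem_univ _), Finset.card_univ,
    ZMod.card]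

/-- The conjecture of Voisin for quotients of Fermat surfaces. -/
theorem voisin_quotient (hζ : IsPrimitiveRoot ζ m) (hF : IsFermatCurve C ζ F t' s')
    (hS : IsFermatSurface C t' S t s) {H : Set (Fin 4 → ZMod m)} (hH : IsSymmetric H)
    (hS' : IsDominatedByQuotient C t H S') : Voisin C S' (genus H) :=
  (main hζ hF hS hS').mono (card_sets hH)

end Pool.Agent.K4H23.Fs
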