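import Pool.Agent.K4H23.Fs.Curve

/-!
# Zero-cycles on Fermat surfaces belonging to characters
-/

open CategoryTheory AlgebraicGeometry

universe u v w

namespace Pool.Agent.K4H23.Fs

set_option linter.unusedSectionVars false
set_option linter.unusedSimpArgs false

open Pool.Agent.H914 Pool.Agent.H914.VarClass Pool.Agent.H914.VarClass.Obj Pool.Agent.W492.BB
  Pool.Agent.W550.Corr Pool.Agent.TH133

variable {k : Type u} [Field k] {𝒱 : VarClass k} {K : Type w} [Field K]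

variable {C : TheoryData.{u, v, w} 𝒱 K} [hC : IsChowOver C] {X X' Y Y' Z W V T F S : 𝒱.Obj}
  {m : ℕ} [NeZero m] {ζ : K} {r : ℕ}

include hC

/-- The product of the values of two images as an integral. -/
lemma act_mul (b : C.A (X.prod Y)) (b' : C.A (X'.prod Y')) (β : C.A X) (β' : C.A X') (y : W ⟶ Y)
    (y' : W ⟶ Y') :
    C.pull y (C.act b β) * C.pull y' (C.act b' β') =
      C.push (fst (W.prod X) X' ≫ fst W X)
        (vl C b (fst (W.prod X) X' ≫ snd W X) (fst (W.prod X) X' ≫ fst W X ≫ y) *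
          vl C b' (snd (W.prod X) X') (fst (W.prod X) X' ≫ fst W X ≫ y') *
          (C.pull (fst (W.prod X) X' ≫ snd W X) β * C.pull (snd (W.prod X) X') β')) := by
  rw [pull_act, pull_act, ← fub2, map_mul (C.pull (fst (W.prod X) X')),
    map_mul (C.pull (prodMap (fst W X) (𝟙 X'))), pull_vl, pull_vl, ← C.pull_comp, ← C.pull_comp]
  have e1 : prodMap (fst W X) (𝟙 X') ≫ snd W X' = snd (W.prod X) X' := by simp
  have e2 : ∀ {U : 𝒱.Obj} (c : W ⟶ U), prodMap (fst W X) (𝟙 X') ≫ fst W X' ≫ c =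
      fst (W.prod X) X' ≫ fst W X ≫ c := by
    intro U c
    rw [← Category.assoc, prodMap_fst, Category.assoc]
  rw [e1, e2]
  congr 1
  ring

/-- The exponents of the first factor. -/
def tri1 (a : Fin 4 → ZMod m) : Fin 3 → ZMod m := ![a 0, a 1, a 2 + a 3]

/-- The exponents of the second factor. -/
def tri2 (a : Fin 4 → ZMod m) : Fin 3 → ZMod m := ![a 2, a 3, a 0 + a 1]

omit hC in
lemma sum_tri1 (a : Fin 4 → ZMod m) : ∑ i, tri1 a i = ∑ i, a i := by
  simp [tri1, Fin.sum_univ_succ]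

omit hC in
lemma sum_tri2 (a : Fin 4 → ZMod m) : ∑ i, tri2 a i = ∑ i, a i := by
  simp [tri2, Fin.sum_univ_succ]
  ring

section fermat

variable [CharZero K] {t' : (Fin 3 → ZMod m) → (F ⟶ F)} {s' : Equiv.Perm (Fin 3) → (F ⟶ F)}
  {t : (Fin 4 → ZMod m) → (S ⟶ S)} {s : Equiv.Perm (Fin 4) → (S ⟶ S)}

/-- The class on `F × F` of an eigenclass on `S`. -/
structure Lifts (C : TheoryData.{u, v, w} 𝒱 K) (ζ : K) (t' : (Fin 3 → ZMod m) → (F ⟶ F))
    (b : C.A ((F.prod F).prod S)) (N : K) (a : Fin 4 → ZMod m) (α : C.A S)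
    (β : C.A (F.prod F)) : Prop where
  nz : N ≠ 0
  act_eq : C.act b β = N • α
  deg : β ∈ C.gr (F.prod F) (1 + F.dim)
  alb : IsAlbaneseTrivial C β
  eig1 : ∀ g, C.pull (prodMap (t' g) (𝟙 F)) β = chr ζ (tri1 a) g • β
  eig2 : ∀ g, C.pull (prodMap (t' g) (𝟙 F)) (tp C β) = chr ζ (tri2 a) g • tp C β

lemma exists_lift (hF : IsFermatCurve C ζ F t' s') (hS : IsFermatSurface C t' S t s) :
    ∃ (b : C.A ((F.prod F).prod S)) (N : K), ∀ (a : Fin 4 → ZMod m) (α : C.A S),
      IsAlbaneseTrivial C α → IsEig C ζ t a α → ∃ β, Lifts C ζ t' b N a α β := by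
  obtain ⟨b, N, hb, hN, hbi, hdom⟩ := hS.dominated
  refine ⟨b, N, fun a α hα he => ⟨C.act (tp C b) α, hN, hdom α hα, ?_, ?_, ?_, ?_⟩⟩
  · have h := act_mem (tp_mem' hb) hα.deg
    have e : (2 : ℤ) + S.dim - S.dim = 1 + F.dim := by
      rw [hF.dim_eq]; norm_num
    rwa [e] at h
  · refine alb_act ?_ ?_ hα
    · rw [hS.dim_eq]
      exact tp_mem' hb
    · rw [hS.dim_eq, dim_prod, hF.dim_eq]
  · intro g
    have h1 := act_pull_pull (f := t ![g 0, g 1, g 2, g 2]) (f' := t (-![g 0, g 1, g 2, g 2]))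
      (g := prodMap (t' g) (𝟙 F)) (t_inv (C := C) hS.toHasSymmetries _)
      (t_inv' (C := C) hS.toHasSymmetries _) (tp C b) α
    rw [← h1]
    have h2 : C.pull (prodMap (t ![g 0, g 1, g 2, g 2]) (prodMap (t' g) (𝟙 F))) (tp C b) =
        tp C b := by
      apply ext_vl
      intro W x y
      rw [vl_pull, vl_tp, vl_tp]
      have h3 := hbi g 0
      conv_rhs => rw [← h3]
      change _ = vl C (C.pull _ b) y x
      rw [vl_pull, hF.t_zero]
      simp
    rw [h2, he, act_map_smul]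
    congr 1
    rw [chr_eq, chr_eq]
    congr 1
    simp [tri1, Fin.sum_univ_succ]
    ring
  · intro g
    have h1 := act_pull_pull (f := t ![g 2, g 2, g 0, g 1]) (f' := t (-![g 2, g 2, g 0, g 1]))
      (g := prodMap (𝟙 F) (t' g)) (t_inv (C := C) hS.toHasSymmetries _)
      (t_inv' (C := C) hS.toHasSymmetries _) (tp C b) α
    have h4 : C.pull (prodMap (t' g) (𝟙 F)) (tp C (C.act (tp C b) α)) =
        tp C (C.pull (prodMap (𝟙 F) (t' g)) (C.act (tp C b) α)) := by
      apply ext_vl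
      intro W x y
      rw [vl_pull, vl_tp, vl_tp, vl_pull]
    rw [h4, ← h1]
    have h2 : C.pull (prodMap (t ![g 2, g 2, g 0, g 1]) (prodMap (𝟙 F) (t' g))) (tp C b) =
        tp C b := by
      apply ext_vl
      intro W x y
      rw [vl_pull, vl_tp, vl_tp]
      have h3 := hbi 0 g
      conv_rhs => rw [← h3]
      change _ = vl C (C.pull _ b) y x
      rw [vl_pull, hF.t_zero]
      simp
    rw [h2, he, act_map_smul, tp_smul]
    congr 1
    rw [chr_eq, chr_eq]
    congr 1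
    simp [tri2, Fin.sum_univ_succ]
    ring

lemma alb_push_snd (hF : IsFermatCurve C ζ F t' s') {β : C.A (F.prod F)}
    (hβ : IsAlbaneseTrivial C β) : C.push (snd F F) β = 0 := by
  rw [← C.act_graph]
  refine hβ.act_eq_zero F _ ?_
  have := graph_deg (C := C) (snd F F)
  rwa [hF.dim_eq] at this

lemma Lifts.eq_zero (hF : IsFermatCurve C ζ F t' s') {b : C.A ((F.prod F).prod S)} {N : K}
    {a : Fin 4 → ZMod m} {α : C.A S} {β : C.A (F.prod F)} (h : Lifts C ζ t' b N a α β) {i : Fin 3}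
    (hi : tri1 a i = 0) : α = 0 := by
  have h1 : β = 0 := zero_label hF hi h.deg h.eig1 (alb_push_snd hF h.alb)
  have h2 := h.act_eq
  rw [h1, C.act_map_zero] at h2
  exact (smul_eq_zero.1 h2.symm).resolve_left h.nz

lemma Lifts.eq_zero' (hF : IsFermatCurve C ζ F t' s') {b : C.A ((F.prod F).prod S)} {N : K}
    {a : Fin 4 → ZMod m} {α : C.A S} {β : C.A (F.prod F)} (h : Lifts C ζ t' b N a α β) {i : Fin 3}
    (hi : tri2 a i = 0) : α = 0 := by
  have h0 : C.push (snd F F) (tp C β) = 0 := by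
    have e : tp C β = C.push (sw F F) β := tp_eq_push C β
    have e2 : sw F F ≫ snd F F = fst F F := by simp [sw]
    rw [e, ← C.push_comp, e2, ← C.act_graph]
    refine h.alb.act_eq_zero F _ ?_
    have := graph_deg (C := C) (fst F F)
    rwa [hF.dim_eq] at this
  have h1 : tp C β = 0 := zero_label hF hi (tp_mem' h.deg) h.eig2 h0
  have h2 : β = 0 := by rw [← tp_tp C β, h1, tp_zero]
  have h3 := h.act_eq
  rw [h2, C.act_map_zero] at h3
  exact (smul_eq_zero.1 h3.symm).resolve_left h.nz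

/-- Products of eigenclasses with opposite exponents. -/
lemma Lifts.mul_zero (hζ : IsPrimitiveRoot ζ m) (hF : IsFermatCurve C ζ F t' s')
    {b : C.A ((F.prod F).prod S)} {N : K}
    {a a' : Fin 4 → ZMod m} {α α' : C.A S} {β β' : C.A (F.prod F)} (h : Lifts C ζ t' b N a α β)
    (h' : Lifts C ζ t' b N a' α' β') (hsum : ∑ i, a i = 0) (ρ : Equiv.Perm (Fin 3))
    (hρ : ∀ i, tri1 a' i = -tri1 a (ρ i)) (x x' : W ⟶ S) :
    C.pull x α * C.pull x' α' = 0 := by
  by_cases hz : ∃ i, tri1 a i = 0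
  · obtain ⟨i, hi⟩ := hz
    rw [h.eq_zero hF hi, map_zero, zero_mul]
  push Not at hz
  have h1 : ∀ {W : 𝒱.Obj} (p p' : W ⟶ F.prod F), C.pull p β * C.pull p' β' = 0 := by
    intro W p p'
    rw [pull_pt, pull_pt]
    exact dual_zero hF (by rw [sum_tri1, hsum]) hz ρ⁻¹ (by
      intro i
      rw [inv_inv]
      exact hρ i) h.deg h'.deg (proj_comp hζ h.eig1) (proj_comp hζ h'.eig1) _ _ _ _
  have h2 : (N * N) • (C.pull x α * C.pull x' α') = 0 := by
    have h3 : (N * N) • (C.pull x α * C.pull x' α') = C.pull x (N • α) * C.pull x' (N • α') := by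
      rw [map_smul, map_smul, smul_mul_smul_comm]
    rw [h3, ← h.act_eq, ← h'.act_eq, act_mul, h1, MulZeroClass.mul_zero, map_zero]
  exact (smul_eq_zero.1 h2).resolve_left (mul_ne_zero h.nz h.nz)

/-- Eigenclasses for the same character. -/
lemma Lifts.mul_comm (hζ : IsPrimitiveRoot ζ m) (hF : IsFermatCurve C ζ F t' s')
    {b : C.A ((F.prod F).prod S)} {N : K}
    {a : Fin 4 → ZMod m} {α α' : C.A S} {β β' : C.A (F.prod F)} (h : Lifts C ζ t' b N a α β)
    (h' : Lifts C ζ t' b N a α' β') (hsum : ∑ i, a i = 0) (x x' : W ⟶ S) :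
    C.pull x α * C.pull x' α' = C.pull x' α * C.pull x α' := by
  by_cases hz : ∃ i, tri1 a i = 0
  · obtain ⟨i, hi⟩ := hz
    rw [h.eq_zero hF hi, map_zero, map_zero, zero_mul, zero_mul]
  by_cases hz' : ∃ i, tri2 a i = 0
  · obtain ⟨i, hi⟩ := hz'
    rw [h.eq_zero' hF hi, map_zero, map_zero, zero_mul, zero_mul]
  push Not at hz hz'
  have h1 : ∀ {W : 𝒱.Obj} (p p' : W ⟶ F.prod F), C.pull p β * C.pull p' β' =
      C.pull p' β * C.pull p β' := by
    intro W p p'
    rw [pull_pt β p, pull_pt β' p', pull_pt β p', pull_pt β' p]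
    have h2 := sym_zero hF (a := tri1 a) (by rw [sum_tri1, hsum]) hz (proj_comp hζ h.eig1)
      (proj_comp hζ h'.eig1) (p ≫ fst F F) (p' ≫ fst F F) (p ≫ snd F F) (p' ≫ snd F F)
    have h3 := sym_zero hF (a := tri2 a) (by rw [sum_tri2, hsum]) hz' (proj_comp hζ h.eig2)
      (proj_comp hζ h'.eig2) (p ≫ snd F F) (p' ≫ snd F F) (p' ≫ fst F F) (p ≫ fst F F)
    rw [vl_tp, vl_tp, vl_tp, vl_tp] at h3
    linear_combination h2 - h3
  have h2 : (N * N) • (C.pull x α * C.pull x' α') = (N * N) • (C.pull x' α * C.pull x α') := by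
    have h3 : ∀ (α α' : C.A S) (x x' : W ⟶ S), (N * N) • (C.pull x α * C.pull x' α') =
        C.pull x (N • α) * C.pull x' (N • α') := by
      intro α α' x x'
      rw [map_smul, map_smul, smul_mul_smul_comm]
    rw [h3, h3, ← h.act_eq, ← h'.act_eq, ch_comm (C.pull x' (C.act b β)), act_mul, act_mul, h1,
      ch_comm (C.pull (snd (W.prod (F.prod F)) (F.prod F)) β)]
  have h4 := congrArg (fun z => (N * N)⁻¹ • z) h2
  simp only [smul_smul, inv_mul_cancel₀ (mul_ne_zero h.nz h.nz), one_smul] at h4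
  exact h4

/-- Zero-cycles with zero exponents vanish, up to permutations. -/
lemma eig_zero (hF : IsFermatCurve C ζ F t' s') (hS : IsFermatSurface C t' S t s)
    {a : Fin 4 → ZMod m} {α : C.A S} (hα : IsAlbaneseTrivial C α) (he : IsEig C ζ t a α)
    (τ : Equiv.Perm (Fin 4)) (i : Fin 3) (hi : tri1 (fun i => a (τ i)) i = 0) : α = 0 := by
  obtain ⟨b, N, hb⟩ := exists_lift hF hS
  have h0 := hS.toHasSymmetries
  have h1 := eig_perm h0 τ⁻¹ he
  rw [inv_inv] at h1
  obtain ⟨β, hβ⟩ := hb _ _ (alb_pull (h0.s_inv τ⁻¹) (s_inv' (C := C) h0 τ⁻¹) hα) h1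
  have h2 := hβ.eq_zero hF hi
  have h3 := congrArg (C.pull (s τ)) h2
  have h4 := h0.s_inv τ
  rw [map_zero, ← C.pull_comp, h4, C.pull_id] at h3
  exact h3

/-- Products of eigenclasses with opposite exponents, up to permutations. -/
lemma eig_mul_zero (hζ : IsPrimitiveRoot ζ m) (hF : IsFermatCurve C ζ F t' s')
    (hS : IsFermatSurface C t' S t s)
    {a a' : Fin 4 → ZMod m} {α α' : C.A S} (hα : IsAlbaneseTrivial C α) (he : IsEig C ζ t a α)
    (hα' : IsAlbaneseTrivial C α') (he' : IsEig C ζ t a' α') (hsum : ∑ i, a i = 0)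
    (τ τ' : Equiv.Perm (Fin 4)) (ρ : Equiv.Perm (Fin 3))
    (hρ : ∀ i, tri1 (fun i => a' (τ' i)) i = -tri1 (fun i => a (τ i)) (ρ i)) (x x' : W ⟶ S) :
    C.pull x α * C.pull x' α' = 0 := by
  obtain ⟨b, N, hb⟩ := exists_lift hF hS
  have h0 := hS.toHasSymmetries
  have h1 := eig_perm h0 τ⁻¹ he
  have h1' := eig_perm h0 τ'⁻¹ he'
  rw [inv_inv] at h1 h1'
  obtain ⟨β, hβ⟩ := hb _ _ (alb_pull (h0.s_inv τ⁻¹) (s_inv' (C := C) h0 τ⁻¹) hα) h1
  obtain ⟨β', hβ'⟩ := hb _ _ (alb_pull (h0.s_inv τ'⁻¹) (s_inv' (C := C) h0 τ'⁻¹) hα') h1'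
  have h2 := hβ.mul_zero hζ hF hβ' (by rw [← hsum]; exact Equiv.sum_comp τ a) ρ hρ (x ≫ s τ)
    (x' ≫ s τ')
  have h4 := h0.s_inv τ
  have h4' := h0.s_inv τ'
  rw [← C.pull_comp, ← C.pull_comp, Category.assoc, Category.assoc, h4, h4', Category.comp_id,
    Category.comp_id] at h2
  exact h2

end fermat

end Pool.Agent.K4H23.Fs
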